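import Pool.Agent.Run7.h700.PC.Op
import Pool.Agent.Y227.SS.Uniform

set_option autoImplicit false

/-!
Systems: a positive proportion of bad classes, or semistable conjugates.
-/

open Finset Polynomial

namespace Pool.Agent.Run7.h700.PC

open Pool.Agent.W432.TC Pool.Agent.W432.PC Pool.Agent.Y227.SS Pool.Agent.R340.SY

universe u

/-- For every common denominator `N` of the exponents there is a set of at least `ε φ(N)` residue
classes modulo `N`, prime to `N`, such that the `p`-curvature of `d/dx - ∑ j, A j / (x - α j)` is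
nonzero at every closed point of `Spec R` whose residue characteristic is a large prime in one of
these classes; and condition (ii) fails. -/
def SysExcluded {R : Type*} [CommRing R] {n r : ℕ} (α : Fin n → R)
    (A : Fin n → Matrix (Fin r) (Fin r) R) (lam : Fin n → Fin r → ℚ) (phi : Fin r → ℚ) (ε : ℝ) :
    Prop :=
  (∀ N : ℕ, 0 < N → (∀ j l, ∃ z : ℤ, (N : ℚ) * lam j l = z) →
    (∀ l, ∃ z : ℤ, (N : ℚ) * phi l = z) → BadClasses α A N ε 1) ∧ ¬ CondII α A

/-- The dichotomy for systems. -/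
theorem sys_or (n r : ℕ) : ∃ ε : ℝ, 0 < ε ∧
    ∀ (R : Type u) [CommRing R] [IsDomain R] [CharZero R] [Algebra.FiniteType ℤ R]
    (α : Fin n → R) (A : Fin n → Matrix (Fin r) (Fin r) R)
    (lam : Fin n → Fin r → ℚ) (phi : Fin r → ℚ),
    (∀ i j, i ≠ j → IsUnit (α i - α j)) →
    (∀ j, HasExponents (A j) (lam j)) → HasExponents (∑ j, A j) phi →
    SysExcluded α A lam phi ε ∨ ∃ N : ℕ, 0 < N ∧ (∀ j l, ∃ z : ℤ, (N : ℚ) * lam j l = z) ∧
      (∀ l, ∃ z : ℤ, (N : ℚ) * phi l = z) ∧ ConjSemi lam phi N := by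
  obtain ⟨ε, 𝒟, hε, -, h⟩ := uniform.{u} n r
  refine ⟨ε, hε, ?_⟩
  intro R _ _ _ _ α A lam phi hα hlam hphi
  by_cases hc : ∃ N : ℕ, 0 < N ∧ (∀ j l, ∃ z : ℤ, (N : ℚ) * lam j l = z) ∧
      (∀ l, ∃ z : ℤ, (N : ℚ) * phi l = z) ∧ ConjSemi lam phi N
  · exact Or.inr hc
  · left
    have key : ∀ N : ℕ, 0 < N → (∀ j l, ∃ z : ℤ, (N : ℚ) * lam j l = z) →
        (∀ l, ∃ z : ℤ, (N : ℚ) * phi l = z) → BadClasses α A N ε 1 ∧ ¬ CondII α A := by
      intro N hN h1 h2
      rcases (h R α A lam phi N hα hlam hphi hN h1 h2).1 with h3 | h3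
      · exact absurd ⟨N, hN, h1, h2, h3.2⟩ hc
      · exact h3
    refine ⟨fun N hN h1 h2 => (key N hN h1 h2).1, ?_⟩
    exact (key (∏ i, (vec lam phi i).den) (prod_den_pos _)
      (fun j l => prod_den_int (vec lam phi) (Sum.inl (j, l)))
      (fun l => prod_den_int (vec lam phi) (Sum.inr l))).2

end Pool.Agent.Run7.h700.PC
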