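import Pool.Agent.Run7.h700.PC.GenericNum
import Pool.Agent.Run7.h700.PC.SysEps

set_option autoImplicit false

/-!
Systems whose exponents are generic at some of the points.
-/

open Finset

namespace Pool.Agent.Run7.h700.PC

open Pool.Agent.Y227.SS Pool.Agent.W432.TC Pool.Agent.W432.PC Pool.Agent.R340.SY

/-- The multiples by `a` of the exponents `E`, with the exponents at the points in `Z` replaced by
arbitrary real numbers with the same sums, are the weights, modulo the integers, of semistable parabolic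
bundles of parabolic degree zero on the projective line over `ℂ`. -/
def FreeAt {m n : ℕ} (E : Option (Fin m) → Fin n → ℚ) (Z : Finset (Option (Fin m))) (a : ℤ) : Prop :=
  ∀ y : Option (Fin m) → Fin n → ℝ, (∀ x, x ∉ Z → ∀ l, y x l = (a : ℝ) * E x l) →
    (∀ x ∈ Z, ∑ l, y x l = (a : ℝ) * ∑ l, (E x l : ℝ)) →
    SemistableWeights ℂ (fun j l => y (some j) l) (fun l => -y none l)

theorem conj_all {m n : ℕ} {lam : Fin m → Fin n → ℚ} {phi : Fin n → ℚ} {N : ℕ} (hN : 0 < N)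
    (h1 : ∀ j l, ∃ z : ℤ, (N : ℚ) * lam j l = z) (h2 : ∀ l, ∃ z : ℤ, (N : ℚ) * phi l = z)
    (hc : ConjSemi lam phi N) {M : ℕ} (hM : 0 < M) (h3 : ∀ j l, ∃ z : ℤ, (M : ℚ) * lam j l = z)
    (h4 : ∀ l, ∃ z : ℤ, (M : ℚ) * phi l = z) : ConjSemi lam phi M := by
  intro a ha
  have h := allSemi_of_conj hN h1 h2 hc M hM (by
    rintro (⟨j, l⟩ | l)
    · exact h3 j l
    · exact h4 l) a ha
  exact h

/-- The conclusions for exponents which are generic at the points in `Z`. -/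
theorem generic_concl (m n : ℕ) : ∃ B : ℕ, ∀ (lam : Fin m → Fin n → ℚ) (phi : Fin n → ℚ) (N : ℕ),
    0 < N → (∀ j l, ∃ z : ℤ, (N : ℚ) * lam j l = z) → (∀ l, ∃ z : ℤ, (N : ℚ) * phi l = z) →
    ConjSemi lam phi N →
    ∀ S : Set ℕ, (∀ p ∈ S, B < p) → ∀ Z : Finset (Option (Fin m)), Z.Nonempty →
    (∀ x, x ∉ Z → ∀ l, DenOut S (expo lam phi x l)) →
    (∀ x ∈ Z, DenOut S (∑ l, expo lam phi x l)) → GenericAt (expo lam phi) S B Z →
    (∀ M : ℕ, 0 < M → (∀ j l, ∃ z : ℤ, (M : ℚ) * lam j l = z) →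
      (∀ l, ∃ z : ℤ, (M : ℚ) * phi l = z) → ∀ a : ℤ, IsCoprime a (M : ℤ) →
      FreeAt (expo lam phi) Z a ∧ Wide (fun x l => (a : ℚ) * expo lam phi x l) Zᶜ) ∧
    2 * (n * (n - 1)) ≤ ∑ x ∈ Zᶜ, nonint (expo lam phi x) ∧
    ∀ z₁ z₂ : Option (Fin m), z₁ ≠ z₂ →
      (∀ x, x ∉ Z → x ≠ z₁ → x ≠ z₂ → ∀ k l, (expo lam phi x k - expo lam phi x l).den = 1) →
      (z₁ ∉ Z ∧ FullCoset (expo lam phi z₁) ∧ z₂ ∉ Z ∧ FullCoset (expo lam phi z₂)) ∨ n ≤ 1 := by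
  classical
  obtain ⟨B, hB⟩ := generic_fill m n
  refine ⟨B, fun lam phi N hN hN1 hN2 hc S hS Z hZ hout htr hgen => ?_⟩
  have key : ∀ M : ℕ, 0 < M → (∀ j l, ∃ z : ℤ, (M : ℚ) * lam j l = z) →
      (∀ l, ∃ z : ℤ, (M : ℚ) * phi l = z) → ∀ a : ℤ, IsCoprime a (M : ℤ) →
      FreeAt (expo lam phi) Z a :=
    fun M hM h1 h2 a ha y hy1 hy2 => hB lam phi M hM h1 h2 (conj_all hN hN1 hN2 hc hM h1 h2) S hS Z
      hout htr hgen a ha y hy1 hy2
  have hw1 : Wide (expo lam phi) Zᶜ := by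
    have h1 := wide_of_free hZ 1 (key N hN hN1 hN2 1 isCoprime_one_left)
    have e : (fun (x : Option (Fin m)) (l : Fin n) => ((1 : ℤ) : ℚ) * expo lam phi x l) =
        expo lam phi := by
      funext x l
      push_cast
      ring
    rwa [e] at h1
  refine ⟨fun M hM h1 h2 a ha => ⟨key M hM h1 h2 a ha, wide_of_free hZ a (key M hM h1 h2 a ha)⟩,
    hw1.count, fun z₁ z₂ hz hT => ?_⟩
  rcases hw1.two hz (fun p hp => hT p (mem_compl.1 hp)) with h | h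
  · exact Or.inl ⟨mem_compl.1 h.1, h.2.1, mem_compl.1 h.2.2.1, h.2.2.2⟩
  · exact Or.inr h

end Pool.Agent.Run7.h700.PC
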