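import Mathlib

set_option autoImplicit false

/-!
Multipliers prime to `N` which make finitely many rational numbers with large prime factors in the
denominator small modulo the integers, but not another rational number.
-/

open Finset

namespace Pool.Agent.Run7.h700.PC

/-- All the prime factors of the denominator of `t` are in `S`. -/
def DenIn (S : Set ℕ) (t : ℚ) : Prop := ∀ p : ℕ, p.Prime → p ∣ t.den → p ∈ S

/-- No prime factor of the denominator of `t` is in `S`. -/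
def DenOut (S : Set ℕ) (t : ℚ) : Prop := ∀ p : ℕ, p.Prime → p ∣ t.den → p ∉ S

lemma den_dvd_iff {N : ℕ} (hN : 0 < N) (t : ℚ) : (∃ z : ℤ, (N : ℚ) * t = z) ↔ t.den ∣ N := by
  have hN0 : (N : ℚ) ≠ 0 := by exact_mod_cast hN.ne'
  constructor
  · rintro ⟨z, hz⟩
    have h1 : t = (z : ℚ) / ((N : ℤ) : ℚ) := by
      push_cast
      field_simp
      linarith
    have h2 := Rat.den_dvd z N
    rw [Rat.divInt_eq_div, ← h1] at h2
    exact_mod_cast h2
  · rintro ⟨c, hc⟩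
    refine ⟨c * t.num, ?_⟩
    have h1 := Rat.mul_den_eq_num t
    rw [hc]
    push_cast
    linear_combination (c : ℚ) * h1

lemma den_one_iff (t : ℚ) : t.den = 1 ↔ ∃ z : ℤ, t = z := by
  constructor
  · intro h
    exact ⟨t.num, (Rat.coe_int_num_of_den_eq_one h).symm⟩
  · rintro ⟨z, rfl⟩
    exact Rat.den_intCast z

lemma int_of_in_out {S : Set ℕ} {t : ℚ} (h1 : DenIn S t) (h2 : DenOut S t) : ∃ z : ℤ, t = z := by
  rw [← den_one_iff]
  by_contra h
  obtain ⟨p, hp, hpd⟩ := Nat.exists_prime_and_dvd h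
  exact h2 p hp hpd (h1 p hp hpd)

/-- Lifting of units. -/
lemma lift_unit {q N : ℕ} (hN : 0 < N) (hqN : q ∣ N) (u : ℤ) (hu : IsCoprime u (q : ℤ)) :
    ∃ a : ℤ, IsCoprime a (N : ℤ) ∧ (q : ℤ) ∣ a - u := by
  have : NeZero N := ⟨hN.ne'⟩
  have : NeZero q := ⟨(Nat.pos_of_dvd_of_pos hqN hN).ne'⟩
  obtain ⟨w, hw⟩ := (ZMod.coe_int_isUnit_iff_isCoprime u q).2 hu.symm
  obtain ⟨v, hv⟩ := ZMod.unitsMap_surjective hqN w
  set a : ℤ := ((v : ZMod N).val : ℤ) with ha
  have haN : ((a : ℤ) : ZMod N) = v := by rw [ha]; simp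
  refine ⟨a, ?_, ?_⟩
  · refine ((ZMod.coe_int_isUnit_iff_isCoprime a N).1 ?_).symm
    rw [haN]
    exact v.isUnit
  · have hau : ((a : ℤ) : ZMod q) = ((u : ℤ) : ZMod q) := by
      rw [← hw, ← hv, ZMod.unitsMap_val, ← haN]
      rw [ZMod.cast_intCast hqN]
    rw [← ZMod.intCast_zmod_eq_zero_iff_dvd, Int.cast_sub, hau, sub_self]

/-- A number prime to `D` between `D / 6` and `D / 2`. -/
lemma exists_mid {D : ℕ} (hD : 2 ≤ D) : ∃ r : ℕ, r.Coprime D ∧ D ≤ 6 * r ∧ 2 * r ≤ D := by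
  have hcases : D % 2 = 1 ∨ D = 2 ∨ D % 4 = 0 ∨ (D % 4 = 2 ∧ 6 ≤ D) := by omega
  rcases hcases with h | h | h | ⟨h, h6⟩
  · obtain ⟨k, hk⟩ : ∃ k, D = 2 * k + 1 := ⟨D / 2, by omega⟩
    refine ⟨k, ?_, by omega, by omega⟩
    rw [hk, show 2 * k + 1 = 1 + k * 2 by ring, Nat.coprime_add_mul_left_right]
    exact Nat.coprime_one_right k
  · exact ⟨1, Nat.coprime_one_left _, by omega, by omega⟩
  · obtain ⟨k, hk⟩ : ∃ k, D = 4 * k := ⟨D / 4, by omega⟩
    have hk1 : 1 ≤ k := by omega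
    refine ⟨2 * k - 1, ?_, by omega, by omega⟩
    have h1 : D = 2 + (2 * k - 1) * 2 := by omega
    rw [h1, Nat.coprime_add_mul_left_right]
    exact Nat.coprime_two_right.2 ⟨k - 1, by omega⟩
  · obtain ⟨k, hk⟩ : ∃ k, D = 4 * k + 2 := ⟨D / 4, by omega⟩
    have hk1 : 1 ≤ k := by omega
    refine ⟨2 * k - 1, ?_, by omega, by omega⟩
    have h1 : D = 4 + (2 * k - 1) * 2 := by omega
    rw [h1, Nat.coprime_add_mul_left_right]
    have h2 : Nat.Coprime (2 * k - 1) 2 := Nat.coprime_two_right.2 ⟨k - 1, by omega⟩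
    exact Nat.Coprime.pow_right 2 h2

/-- A unit which moves a rational number away from the integers. -/
lemma unit_far {N : ℕ} (hN : 0 < N) {y : ℚ} (hy : ∃ z : ℤ, (N : ℚ) * y = z) (h1 : y.den ≠ 1) :
    ∃ b : ℤ, IsCoprime b (N : ℤ) ∧ ∀ k : ℤ, (1 : ℚ) / 6 ≤ |(b : ℚ) * y - k| := by
  have hD : 2 ≤ y.den := by have := y.den_pos; omega
  have hdvd := (den_dvd_iff hN y).1 hy
  obtain ⟨r, hr, hr6, hr2⟩ := exists_mid hD
  have hD0 : (0 : ℚ) < y.den := by exact_mod_cast y.den_pos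
  have hcop : IsCoprime y.num (y.den : ℤ) := by
    rw [Int.isCoprime_iff_nat_coprime]
    simpa using y.reduced
  obtain ⟨c, w, hcw⟩ := hcop
  have hcD : IsCoprime (c * r) (y.den : ℤ) := by
    refine IsCoprime.mul_left ⟨y.num, w, by linear_combination hcw⟩ ?_
    exact Nat.isCoprime_iff_coprime.2 hr
  obtain ⟨b, hbN, e, he⟩ := lift_unit hN hdvd (c * r) hcD
  refine ⟨b, hbN, fun k => ?_⟩
  have hy' : y = y.num / y.den := (Rat.num_div_den y).symm
  -- `b y = r / D` modulo the integers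
  have hb : (b : ℚ) * y = r / y.den + ((e * y.num - w * r : ℤ) : ℚ) := by
    have h2 : (b : ℤ) * y.num = r + y.den * (e * y.num - w * r) := by
      linear_combination y.num * he + r * hcw
    have h3 : (b : ℚ) * y.num = r + y.den * ((e * y.num - w * r : ℤ) : ℚ) := by
      exact_mod_cast h2
    have h4 : (b : ℚ) * y = (b * y.num) / y.den := by
      conv_lhs => rw [hy']
      rw [mul_div_assoc]
    rw [h4, h3]
    field_simp
  have hx1 : (1 : ℚ) / 6 ≤ r / y.den := by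
    rw [div_le_div_iff₀ (by norm_num) hD0]
    have : ((y.den : ℕ) : ℚ) ≤ 6 * r := by exact_mod_cast hr6
    linarith
  have hx2 : (r : ℚ) / y.den ≤ 1 / 2 := by
    rw [div_le_div_iff₀ hD0 (by norm_num)]
    have : (2 : ℚ) * r ≤ ((y.den : ℕ) : ℚ) := by exact_mod_cast hr2
    linarith
  rw [hb]
  set j : ℤ := k - (e * y.num - w * r) with hj
  have h5 : (r : ℚ) / y.den + ((e * y.num - w * r : ℤ) : ℚ) - k = r / y.den - j := by
    rw [hj]
    push_cast
    ring
  rw [h5]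
  rcases le_or_gt j 0 with hj0 | hj0
  · have : (j : ℚ) ≤ 0 := by exact_mod_cast hj0
    rw [abs_of_nonneg (by linarith)]
    linarith
  · have : (1 : ℚ) ≤ j := by exact_mod_cast hj0
    rw [abs_of_nonpos (by linarith)]
    linarith

/-- Simultaneous approximation. -/
lemma dirichlet {J : Type*} [Fintype J] (M : ℕ) (hM : 0 < M) (δ : J → ℚ) :
    ∃ a : ℕ, 0 < a ∧ a ≤ M ^ Fintype.card J ∧ ∀ j, ∃ k : ℤ, |(a : ℚ) * δ j - k| < 1 / M := by
  classical
  have hM0 : (0 : ℚ) < M := by exact_mod_cast hM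
  have hlt : ∀ x : ℚ, ⌊(M : ℚ) * Int.fract x⌋.toNat < M := by
    intro x
    have h1 : (0 : ℚ) ≤ M * Int.fract x := mul_nonneg hM0.le (Int.fract_nonneg x)
    have h2 : (M : ℚ) * Int.fract x < M := by
      have := Int.fract_lt_one x
      nlinarith
    have h3 : ⌊(M : ℚ) * Int.fract x⌋ < M := by
      rw [Int.floor_lt]
      exact_mod_cast h2
    have h4 := Int.floor_nonneg.2 h1
    omega
  let f : Fin (M ^ Fintype.card J + 1) → (J → Fin M) := fun i j =>
    ⟨⌊(M : ℚ) * Int.fract ((i : ℕ) * δ j)⌋.toNat, hlt _⟩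
  obtain ⟨i, i', hne, hf⟩ := Fintype.exists_ne_map_eq_of_card_lt f (by
    rw [Fintype.card_fin, Fintype.card_fun, Fintype.card_fin]
    exact Nat.lt_succ_self _)
  wlog hii : i < i' generalizing i i'
  · exact this i' i hne.symm hf.symm (lt_of_le_of_ne (not_lt.1 hii) hne.symm)
  refine ⟨i' - i, by have : (i : ℕ) < i' := hii; omega, by have := i'.isLt; omega, fun j => ?_⟩
  refine ⟨⌊((i' : ℕ) : ℚ) * δ j⌋ - ⌊((i : ℕ) : ℚ) * δ j⌋, ?_⟩
  have h1 : ⌊(M : ℚ) * Int.fract (((i : ℕ) : ℚ) * δ j)⌋.toNat =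
      ⌊(M : ℚ) * Int.fract (((i' : ℕ) : ℚ) * δ j)⌋.toNat := by
    have := congrFun hf j
    exact congrArg Fin.val this
  have h0 : ∀ x : ℚ, 0 ≤ ⌊(M : ℚ) * Int.fract x⌋ := fun x =>
    Int.floor_nonneg.2 (mul_nonneg hM0.le (Int.fract_nonneg x))
  have h2 : ⌊(M : ℚ) * Int.fract (((i : ℕ) : ℚ) * δ j)⌋ =
      ⌊(M : ℚ) * Int.fract (((i' : ℕ) : ℚ) * δ j)⌋ := by
    have h3 := h0 (((i : ℕ) : ℚ) * δ j)
    have h4 := h0 (((i' : ℕ) : ℚ) * δ j)
    omega
  have h3 := Int.abs_sub_lt_one_of_floor_eq_floor h2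
  have hcast : (((i' : ℕ) - (i : ℕ) : ℕ) : ℚ) = ((i' : ℕ) : ℚ) - ((i : ℕ) : ℚ) := by
    rw [Nat.cast_sub hii.le]
  have h4 : (((i' : ℕ) - (i : ℕ) : ℕ) : ℚ) * δ j -
      ((⌊((i' : ℕ) : ℚ) * δ j⌋ - ⌊((i : ℕ) : ℚ) * δ j⌋ : ℤ) : ℚ) =
      -(Int.fract (((i : ℕ) : ℚ) * δ j) - Int.fract (((i' : ℕ) : ℚ) * δ j)) := by
    rw [hcast, Int.fract, Int.fract]
    push_cast
    ring
  rw [h4, abs_neg, lt_div_iff₀ hM0]
  nth_rewrite 1 [← abs_of_pos hM0]
  rw [← abs_mul]
  have h5 : (Int.fract (((i : ℕ) : ℚ) * δ j) - Int.fract (((i' : ℕ) : ℚ) * δ j)) * M =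
      (M : ℚ) * Int.fract (((i : ℕ) : ℚ) * δ j) - M * Int.fract (((i' : ℕ) : ℚ) * δ j) := by ring
  rw [h5]
  exact h3

/-- A number is a product of its `S`-part and of the other part. -/
lemma split_nat (S : Set ℕ) {N : ℕ} (hN : 0 < N) : ∃ N₁ N₂ : ℕ, 0 < N₁ ∧ 0 < N₂ ∧ N = N₁ * N₂ ∧
    (∀ p : ℕ, p.Prime → p ∣ N₁ → p ∈ S) ∧ (∀ p : ℕ, p.Prime → p ∣ N₂ → p ∉ S) := by
  classical
  induction N using Nat.recOnMul with
  | zero => exact absurd hN (lt_irrefl _)
  | one => exact ⟨1, 1, one_pos, one_pos, rfl, fun p hp h => absurd (Nat.dvd_one.1 h) hp.one_lt.ne',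
      fun p hp h => absurd (Nat.dvd_one.1 h) hp.one_lt.ne'⟩
  | prime q hq =>
    by_cases hqS : q ∈ S
    · exact ⟨q, 1, hq.pos, one_pos, (mul_one _).symm,
        fun p hp h => ((Nat.prime_dvd_prime_iff_eq hp hq).1 h) ▸ hqS,
        fun p hp h => absurd (Nat.dvd_one.1 h) hp.one_lt.ne'⟩
    · exact ⟨1, q, one_pos, hq.pos, (one_mul _).symm,
        fun p hp h => absurd (Nat.dvd_one.1 h) hp.one_lt.ne',
        fun p hp h => ((Nat.prime_dvd_prime_iff_eq hp hq).1 h) ▸ hqS⟩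
  | mul a b iha ihb =>
    have ha : 0 < a := Nat.pos_of_ne_zero fun h => by simp [h] at hN
    have hb : 0 < b := Nat.pos_of_ne_zero fun h => by simp [h] at hN
    obtain ⟨a1, a2, h1, h2, h3, h4, h5⟩ := iha ha
    obtain ⟨b1, b2, g1, g2, g3, g4, g5⟩ := ihb hb
    refine ⟨a1 * b1, a2 * b2, Nat.mul_pos h1 g1, Nat.mul_pos h2 g2, by rw [h3, g3]; ring, ?_, ?_⟩
    · intro p hp h
      rcases (Nat.Prime.dvd_mul hp).1 h with h | h
      · exact h4 p hp h
      · exact g4 p hp h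
    · intro p hp h
      rcases (Nat.Prime.dvd_mul hp).1 h with h | h
      · exact h5 p hp h
      · exact g5 p hp h

lemma coprime_parts {S : Set ℕ} {N₁ N₂ : ℕ} (h1 : ∀ p : ℕ, p.Prime → p ∣ N₁ → p ∈ S)
    (h2 : ∀ p : ℕ, p.Prime → p ∣ N₂ → p ∉ S) : IsCoprime (N₁ : ℤ) (N₂ : ℤ) := by
  rw [Nat.isCoprime_iff_coprime]
  exact Nat.Coprime.symm (Nat.coprime_of_dvd fun p hp h h' => (h2 p hp h) (h1 p hp h'))

/-- The multiplier: numbers with denominators composed of large primes become small, another number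
does not. -/
theorem exists_unit {N : ℕ} (hN : 0 < N) {S : Set ℕ} {M : ℕ} (hM : 0 < M) (V : Finset ℚ)
    (hV : ∀ v ∈ V, ∃ z : ℤ, (N : ℚ) * v = z) (hVS : ∀ v ∈ V, DenIn S v)
    (hS : ∀ p ∈ S, M ^ (V.card + 1) < p) {d : ℚ} (hd : ∃ z : ℤ, (N : ℚ) * d = z)
    (hdS : ¬ DenIn S d) :
    ∃ u : ℤ, IsCoprime u (N : ℤ) ∧ (∀ v ∈ V, ∃ k : ℤ, |(u : ℚ) * v - k| < 1 / M) ∧
      ∀ k : ℤ, (1 : ℚ) / 6 - 1 / M < |(u : ℚ) * d - k| := by
  classical
  obtain ⟨N₁, N₂, hN1, hN2, hNN, hp1, hp2⟩ := split_nat S hN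
  obtain ⟨s, t, hst⟩ := coprime_parts hp1 hp2
  have hstq : (s : ℚ) * N₁ + t * N₂ = 1 := by exact_mod_cast hst
  obtain ⟨zd, hzd⟩ := hd
  have hNq : (N : ℚ) = N₁ * N₂ := by exact_mod_cast hNN
  set d' : ℚ := t * N₂ * d with hd'
  set d'' : ℚ := s * N₁ * d with hd''
  have hdd : d = d' + d'' := by
    rw [hd', hd'']
    linear_combination (-d) * hstq
  have hd1 : (N₁ : ℚ) * d' = ((t * zd : ℤ) : ℚ) := by
    rw [hd']
    push_cast
    rw [← hzd, hNq]
    ring
  have hd2 : (N₂ : ℚ) * d'' = ((s * zd : ℤ) : ℚ) := by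
    rw [hd'']
    push_cast
    rw [← hzd, hNq]
    ring
  have hnon : d''.den ≠ 1 := by
    intro h
    obtain ⟨z, hz⟩ := (den_one_iff _).1 h
    apply hdS
    have h3 : d.den ∣ N₁ := (den_dvd_iff hN1 d).1 ⟨t * zd + N₁ * z, by
      rw [hdd, mul_add, hd1, hz]
      push_cast
      ring⟩
    exact fun p hp hpd => hp1 p hp (hpd.trans h3)
  have hV1 : ∀ v ∈ V, ∃ z : ℤ, (N₁ : ℚ) * v = z := by
    intro v hv
    rw [den_dvd_iff hN1]
    have h3 := (den_dvd_iff hN v).1 (hV v hv)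
    rw [hNN] at h3
    have h4 : Nat.Coprime v.den N₂ := Nat.Coprime.symm (Nat.coprime_of_dvd fun p hp h h' =>
      (hp2 p hp h) (hVS v hv p hp h'))
    exact h4.dvd_of_dvd_mul_right h3
  -- the small multiplier
  obtain ⟨a, ha0, haM, ha⟩ := dirichlet (J := Option V) M hM (fun o => o.elim d' fun v => v.1)
  have hcard : Fintype.card (Option V) = V.card + 1 := by
    rw [Fintype.card_option, Fintype.card_coe]
  rw [hcard] at haM
  have haN : IsCoprime (a : ℤ) (N₁ : ℤ) := by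
    rw [Nat.isCoprime_iff_coprime]
    refine Nat.coprime_of_dvd fun p hp h h' => ?_
    have h3 := hS p (hp1 p hp h')
    have h4 := Nat.le_of_dvd ha0 h
    omega
  obtain ⟨b, hbN, hb⟩ := unit_far hN2 ⟨_, hd2⟩ hnon
  set u : ℤ := a * (t * N₂) + b * (s * N₁) with hu
  have hu1 : u - a = N₁ * (s * (b - a)) := by
    rw [hu]
    linear_combination (a : ℤ) * hst
  have hu2 : u - b = N₂ * (t * (a - b)) := by
    rw [hu]
    linear_combination (b : ℤ) * hst
  refine ⟨u, ?_, ?_, ?_⟩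
  · rw [hNN]
    push_cast
    refine IsCoprime.mul_right ?_ ?_
    · have h3 : u = a + N₁ * (s * (b - a)) := by linarith
      rw [h3]
      exact IsCoprime.add_mul_left_left haN _
    · have h3 : u = b + N₂ * (t * (a - b)) := by linarith
      rw [h3]
      exact IsCoprime.add_mul_left_left hbN _
  · intro v hv
    obtain ⟨k, hk⟩ := ha (some ⟨v, hv⟩)
    obtain ⟨z, hz⟩ := hV1 v hv
    refine ⟨k + s * (b - a) * z, ?_⟩
    have h3 : (u : ℚ) = a + N₁ * (s * (b - a)) := by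
      have : u = a + N₁ * (s * (b - a)) := by linarith
      rw [this]
      push_cast
      ring
    have h4 : (u : ℚ) * v - ((k + s * (b - a) * z : ℤ) : ℚ) = a * v - k := by
      rw [h3]
      push_cast
      rw [← hz]
      ring
    rw [h4]
    exact hk
  · intro k
    obtain ⟨k1, hk1⟩ := ha none
    have hk1' : |(a : ℚ) * d' - k1| < 1 / M := hk1
    have h3 : (u : ℚ) * d - k = ((b : ℚ) * d'' - ((k - k1 - s * (b - a) * (t * zd) -
        t * (a - b) * (s * zd) : ℤ) : ℚ)) + (a * d' - k1) := by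
      have e1 : (u : ℚ) = a + N₁ * (s * (b - a)) := by
        have : u = a + N₁ * (s * (b - a)) := by linarith
        rw [this]
        push_cast
        ring
      have e2 : (u : ℚ) = b + N₂ * (t * (a - b)) := by
        have : u = b + N₂ * (t * (a - b)) := by linarith
        rw [this]
        push_cast
        ring
      have e3 : (u : ℚ) * d' = a * d' + s * (b - a) * (t * zd) := by
        rw [e1]
        have := hd1
        push_cast at this
        linear_combination (s * (b - a) : ℚ) * this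
      have e4 : (u : ℚ) * d'' = b * d'' + t * (a - b) * (s * zd) := by
        rw [e2]
        have := hd2
        push_cast at this
        linear_combination (t * (a - b) : ℚ) * this
      rw [hdd, mul_add, e3, e4]
      push_cast
      ring
    rw [h3]
    have h4 := hb (k - k1 - s * (b - a) * (t * zd) - t * (a - b) * (s * zd))
    have h5 := abs_sub_abs_le_abs_add ((b : ℚ) * d'' - ((k - k1 - s * (b - a) * (t * zd) -
        t * (a - b) * (s * zd) : ℤ) : ℚ)) (a * d' - k1)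
    linarith

end Pool.Agent.Run7.h700.PC
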