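import Pool.Agent.Run7.h700.PC.Line
import Pool.Agent.Run7.h700.PC.Unit
import Pool.Agent.R340.SY.Ineq

set_option autoImplicit false

/-!
Exponents all of whose conjugates are the weights of semistable parabolic bundles, with differences
whose denominators have large prime factors.
-/

open Finset

namespace Pool.Agent.Run7.h700.PC

open Pool.Agent.Y227.SS Pool.Agent.R340.SY

variable {m n N : ℕ} {lam : Fin m → Fin n → ℚ} {phi : Fin n → ℚ}

/-- For all `a` prime to `N` the multiples by `a` are the weights, modulo the integers, of a semistable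
parabolic bundle of parabolic degree zero on the projective line over `ℂ`. -/
def ConjSemi (lam : Fin m → Fin n → ℚ) (phi : Fin n → ℚ) (N : ℕ) : Prop :=
  ∀ a : ℤ, IsCoprime a (N : ℤ) →
    SemistableWeights ℂ (fun j l => (a : ℝ) * lam j l) (fun l => (a : ℝ) * phi l)

lemma wts_expo (a : ℤ) (p : Option (Fin m)) (l : Fin n) :
    wts (fun j l => (a : ℝ) * lam j l) (fun l => (a : ℝ) * phi l) p l =
      (((a : ℚ) * expo lam phi p l : ℚ) : ℝ) := by
  cases p with
  | none =>
    simp only [wts, expo]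
    push_cast
    ring
  | some j =>
    simp only [wts, expo]
    push_cast
    ring

/-- The arc inequality, for rational numbers. -/
theorem arcs_rat (hc : ConjSemi lam phi N) {u : ℤ} (hu : IsCoprime u (N : ℤ))
    (β γ : Option (Fin m) → ℚ) (hγ : ∀ p, 0 ≤ γ p) (k : ℤ) (h1 : (k : ℚ) < ∑ p, β p)
    (h2 : ∑ p, β p + ∑ p, γ p < k + 1) :
    n ≤ ∑ p, (univ.filter fun l => γ p < Int.fract ((u : ℚ) * expo lam phi p l - β p)).card := by
  have hst := hc u hu
  have hst' : SemistableWeights ℂ (fun j l => -((u : ℝ) * lam j l)) (fun l => -((u : ℝ) * phi l)) := by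
    have h3 := hc (-u) hu.neg_left
    push_cast at h3
    simpa only [neg_mul] using h3
  have h3 := arcs_semi hst hst' (fun p => ((β p : ℚ) : ℝ)) (fun p => ((γ p : ℚ) : ℝ))
    (fun p => by exact_mod_cast hγ p) k (by exact_mod_cast h1) (by exact_mod_cast h2)
  refine h3.trans (le_of_eq (sum_congr rfl fun p _ => ?_))
  congr 1
  ext l
  simp only [mem_filter, mem_univ, true_and]
  rw [wts_expo, ← Rat.cast_sub, ← Rat.cast_fract, Rat.cast_lt]

lemma fract_small {M : ℕ} (hM : 2 ≤ M) {x : ℚ} (h : ∃ k : ℤ, |x - k| < 1 / M) :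
    Int.fract (x + 1 / M) ≤ 2 / M := by
  obtain ⟨k, hk⟩ := h
  have hM0 : (0 : ℚ) < M := by
    have : (2 : ℚ) ≤ M := by exact_mod_cast hM
    linarith
  rw [abs_lt] at hk
  have h2 : (2 : ℚ) / M ≤ 1 := by
    rw [div_le_one hM0]
    exact_mod_cast hM
  have h3 : (2 : ℚ) / M = 1 / M + 1 / M := by ring
  have h4 : Int.fract (x + 1 / M) = x + 1 / M - k := by
    rw [Int.fract_eq_iff]
    exact ⟨by linarith, by linarith, k, by ring⟩
  rw [h4]
  linarith

/-- The points with nonintegral differences. -/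
noncomputable def spread (lam : Fin m → Fin n → ℚ) (phi : Fin n → ℚ)
    (κ : Option (Fin m) → Fin n) : Finset (Option (Fin m)) :=
  univ.filter fun x => ∃ l, (expo lam phi x l - expo lam phi x (κ x)).den ≠ 1

section common

variable (hN : 0 < N) (hden : ∀ p l, ∃ z : ℤ, (N : ℚ) * expo lam phi p l = z)

include hden in
lemma diff_den (x : Option (Fin m)) (l l' : Fin n) :
    ∃ z : ℤ, (N : ℚ) * (expo lam phi x l - expo lam phi x l') = z := by
  obtain ⟨z, hz⟩ := hden x l
  obtain ⟨z', hz'⟩ := hden x l'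
  exact ⟨z - z', by push_cast; rw [mul_sub, hz, hz']⟩

include hden in
/-- The arcs of the points with small differences. -/
lemma small_arc {M : ℕ} (hM : 2 ≤ M) {u : ℤ} {V : Finset ℚ}
    (hu : ∀ v ∈ V, (∃ z : ℤ, (N : ℚ) * v = z) → ∃ k : ℤ, |(u : ℚ) * v - k| < 1 / M)
    {κ : Option (Fin m) → Fin n} {x : Option (Fin m)}
    (hx : ∀ l, (expo lam phi x l - expo lam phi x (κ x)).den = 1 ∨
      ∃ v ∈ V, ∃ j : ℤ, expo lam phi x l - expo lam phi x (κ x) = v + j) (l : Fin n) :
    Int.fract ((u : ℚ) * expo lam phi x l -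
      ((u : ℚ) * expo lam phi x (κ x) - if x ∈ spread lam phi κ then (1 : ℚ) / M else 0)) ≤
      if x ∈ spread lam phi κ then (2 : ℚ) / M else 0 := by
  have hM0 : (0 : ℚ) < M := by
    have : (2 : ℚ) ≤ M := by exact_mod_cast hM
    linarith
  split_ifs with h
  · have e : (u : ℚ) * expo lam phi x l - ((u : ℚ) * expo lam phi x (κ x) - 1 / M) =
        (u : ℚ) * (expo lam phi x l - expo lam phi x (κ x)) + 1 / M := by ring
    rw [e]
    refine fract_small hM ?_
    rcases hx l with h1 | ⟨v, hv, j, hj⟩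
    · obtain ⟨z, hz⟩ := (den_one_iff _).1 h1
      refine ⟨u * z, ?_⟩
      rw [hz]
      push_cast
      rw [sub_self, abs_zero]
      positivity
    · obtain ⟨k, hk⟩ := hu v hv (by
        obtain ⟨z, hz⟩ := diff_den hden x l (κ x)
        rw [hj] at hz
        exact ⟨z - N * j, by push_cast; linarith⟩)
      refine ⟨k + u * j, ?_⟩
      rw [hj]
      push_cast
      have e2 : (u : ℚ) * (v + j) - (k + u * j) = u * v - k := by ring
      rw [e2]
      exact hk
  · have h1 : (expo lam phi x l - expo lam phi x (κ x)).den = 1 := by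
      by_contra hcon
      exact h (mem_filter.2 ⟨mem_univ _, l, hcon⟩)
    obtain ⟨z, hz⟩ := (den_one_iff _).1 h1
    have e : (u : ℚ) * expo lam phi x l - ((u : ℚ) * expo lam phi x (κ x) - 0) = ((u * z : ℤ) : ℚ) := by
      push_cast
      rw [← hz]
      ring
    rw [e, Int.fract_intCast]

include hN hden in
/-- **One point.** If the differences of the exponents at all the points `x ≠ z` are composed of large
primes, then so are the differences at `z`. -/
theorem abs_one (hc : ConjSemi lam phi N) (S : Set ℕ) (z : Option (Fin m))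
    (κ : Option (Fin m) → Fin n) (V : Finset ℚ) (hVS : ∀ v ∈ V, DenIn S v)
    (hx : ∀ x, x ≠ z → ∀ l, (expo lam phi x l - expo lam phi x (κ x)).den = 1 ∨
      ∃ v ∈ V, ∃ j : ℤ, expo lam phi x l - expo lam phi x (κ x) = v + j)
    (hS : ∀ p ∈ S, (12 * ((spread lam phi κ).erase z).card + 7) ^ (V.card + 1) < p)
    (l l' : Fin n) : DenIn S (expo lam phi z l - expo lam phi z l') := by
  classical
  by_contra hcon
  set s : ℕ := ((spread lam phi κ).erase z).card with hs
  set M : ℕ := 12 * s + 7 with hM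
  have hM2 : 2 ≤ M := by omega
  have hMq : (M : ℚ) = 12 * s + 7 := by rw [hM]; push_cast; ring
  have hs0 : (0 : ℚ) ≤ s := Nat.cast_nonneg s
  have hM0 : (0 : ℚ) < M := by rw [hMq]; linarith
  set W : Finset ℚ := V.filter fun v => ∃ z : ℤ, (N : ℚ) * v = z with hW
  have hWV : W.card ≤ V.card := card_filter_le _ _
  obtain ⟨u, huN, hu1, hu2⟩ := exists_unit hN (S := S) (M := M) (by omega) W
    (fun v hv => (mem_filter.1 hv).2) (fun v hv => hVS v (mem_filter.1 hv).1)
    (fun p hp => lt_of_le_of_lt (Nat.pow_le_pow_right (by omega) (by omega)) (hS p hp))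
    (diff_den hden z l l') hcon
  have hu1' : ∀ v ∈ V, (∃ z : ℤ, (N : ℚ) * v = z) → ∃ k : ℤ, |(u : ℚ) * v - k| < 1 / M :=
    fun v hv hz => hu1 v (mem_filter.2 ⟨hv, hz⟩)
  set b : Option (Fin m) → ℚ := fun x =>
    (u : ℚ) * expo lam phi x (κ x) - if x ∈ spread lam phi κ then (1 : ℚ) / M else 0 with hb
  set η : ℚ := 1 / (24 * M) with hη
  have hη0 : 0 < η := by positivity
  set β : Option (Fin m) → ℚ := fun x =>
    if x = z then η - ∑ y ∈ univ.erase z, b y else b x with hβ
  set γ : Option (Fin m) → ℚ := fun x =>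
    if x = z then 1 - 2 * s / M - 2 * η else if x ∈ spread lam phi κ then (2 : ℚ) / M else 0 with hγ
  have hβz : β z = η - ∑ y ∈ univ.erase z, b y := if_pos rfl
  have hγz : γ z = 1 - 2 * s / M - 2 * η := if_pos rfl
  have hβx : ∀ x, x ≠ z → β x = b x := fun x h => if_neg h
  have hγx : ∀ x, x ≠ z → γ x = if x ∈ spread lam phi κ then (2 : ℚ) / M else 0 :=
    fun x h => if_neg h
  have hsM : 2 * (s : ℚ) / M + 2 * η ≤ 1 / 6 - 1 / M := by
    rw [hη]
    have h1 : (1 : ℚ) / 6 - 1 / M - (2 * (s : ℚ) / M + 2 * (1 / (24 * M))) = 1 / (12 * M) := by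
      field_simp
      rw [hMq]
      ring
    have h2 : (0 : ℚ) < 1 / (12 * M) := by positivity
    linarith
  have hM1 : (0 : ℚ) < 1 / M := by positivity
  have hγ0 : ∀ x, 0 ≤ γ x := by
    intro x
    by_cases h : x = z
    · rw [h, hγz]
      linarith
    · rw [hγx x h]
      split_ifs
      · positivity
      · exact le_rfl
  have hsumβ : ∑ x, β x = η := by
    rw [← add_sum_erase univ β (mem_univ z), hβz, sum_congr rfl fun x hx => hβx x (ne_of_mem_erase hx)]
    ring
  have hsumγ : ∑ x, γ x = 1 - 2 * η := by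
    rw [← add_sum_erase univ γ (mem_univ z), hγz, sum_congr rfl fun x hx => hγx x (ne_of_mem_erase hx),
      ← sum_filter, sum_const, nsmul_eq_mul]
    have h1 : (univ.erase z).filter (fun x => x ∈ spread lam phi κ) = (spread lam phi κ).erase z := by
      ext x
      simp only [mem_filter, mem_erase, mem_univ, and_true]
    rw [h1, ← hs]
    ring
  have harc := arcs_rat hc huN β γ hγ0 0 (by rw [hsumβ]; push_cast; exact hη0) (by
    rw [hsumβ, hsumγ]
    push_cast
    linarith)
  have hzero : ∀ x ∈ univ.erase z, (univ.filter fun l =>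
      γ x < Int.fract ((u : ℚ) * expo lam phi x l - β x)).card = 0 := by
    intro x hxz
    rw [card_eq_zero, filter_eq_empty_iff]
    intro l _
    have hne := ne_of_mem_erase hxz
    rw [hβx x hne, hγx x hne, not_lt]
    exact small_arc hden hM2 hu1' (hx x hne) l
  rw [← add_sum_erase univ _ (mem_univ z), sum_eq_zero hzero, add_zero] at harc
  have hall : ∀ l, γ z < Int.fract ((u : ℚ) * expo lam phi z l - β z) := by
    have h1 : (univ.filter fun l => γ z < Int.fract ((u : ℚ) * expo lam phi z l - β z)) = univ := by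
      rw [← card_eq_iff_eq_univ, Fintype.card_fin]
      refine le_antisymm ?_ harc
      have := card_le_univ (univ.filter fun l =>
        γ z < Int.fract ((u : ℚ) * expo lam phi z l - β z))
      rwa [Fintype.card_fin] at this
    intro l
    have h2 : l ∈ univ.filter fun l => γ z < Int.fract ((u : ℚ) * expo lam phi z l - β z) := by
      rw [h1]
      exact mem_univ l
    exact (mem_filter.1 h2).2
  have h1 := hall l
  have h2 := hall l'
  have h3 := Int.fract_lt_one ((u : ℚ) * expo lam phi z l - β z)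
  have h4 := Int.fract_lt_one ((u : ℚ) * expo lam phi z l' - β z)
  have h5 := hu2 (⌊(u : ℚ) * expo lam phi z l - β z⌋ - ⌊(u : ℚ) * expo lam phi z l' - β z⌋)
  have h6 : (u : ℚ) * (expo lam phi z l - expo lam phi z l') -
      ((⌊(u : ℚ) * expo lam phi z l - β z⌋ - ⌊(u : ℚ) * expo lam phi z l' - β z⌋ : ℤ) : ℚ) =
      Int.fract ((u : ℚ) * expo lam phi z l - β z) - Int.fract ((u : ℚ) * expo lam phi z l' - β z) := by
    rw [Int.fract, Int.fract]
    push_cast
    ring
  rw [h6] at h5
  rw [hγz] at h1 h2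
  have h7 : |Int.fract ((u : ℚ) * expo lam phi z l - β z) -
      Int.fract ((u : ℚ) * expo lam phi z l' - β z)| < 2 * s / M + 2 * η := by
    rw [abs_lt]
    constructor <;> linarith
  linarith

include hN hden in
/-- **All points.** If all the differences are composed of large primes then so are the sums. -/
theorem abs_sum (hn : 1 ≤ n) (hc : ConjSemi lam phi N) (S : Set ℕ)
    (κ : Option (Fin m) → Fin n) (V : Finset ℚ) (hVS : ∀ v ∈ V, DenIn S v)
    (hx : ∀ x, ∀ l, (expo lam phi x l - expo lam phi x (κ x)).den = 1 ∨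
      ∃ v ∈ V, ∃ j : ℤ, expo lam phi x l - expo lam phi x (κ x) = v + j)
    (hS : ∀ p ∈ S, (12 * (spread lam phi κ).card + 7) ^ (V.card + 1) < p) :
    DenIn S (∑ x, expo lam phi x (κ x)) := by
  classical
  by_contra hcon
  set s : ℕ := (spread lam phi κ).card with hs
  set M : ℕ := 12 * s + 7 with hM
  have hM2 : 2 ≤ M := by omega
  have hMq : (M : ℚ) = 12 * s + 7 := by rw [hM]; push_cast; ring
  have hs0 : (0 : ℚ) ≤ s := Nat.cast_nonneg s
  have hM0 : (0 : ℚ) < M := by rw [hMq]; linarith
  set W : Finset ℚ := V.filter fun v => ∃ z : ℤ, (N : ℚ) * v = z with hW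
  have hWV : W.card ≤ V.card := card_filter_le _ _
  have hcd : ∃ z : ℤ, (N : ℚ) * ∑ x, expo lam phi x (κ x) = z := by
    choose g hg using hden
    refine ⟨∑ x, g x (κ x), ?_⟩
    rw [mul_sum]
    push_cast
    exact sum_congr rfl fun x _ => hg x (κ x)
  obtain ⟨u, huN, hu1, hu2⟩ := exists_unit hN (S := S) (M := M) (by omega) W
    (fun v hv => (mem_filter.1 hv).2) (fun v hv => hVS v (mem_filter.1 hv).1)
    (fun p hp => lt_of_le_of_lt (Nat.pow_le_pow_right (by omega) (by omega)) (hS p hp))
    hcd hcon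
  have hu1' : ∀ v ∈ V, (∃ z : ℤ, (N : ℚ) * v = z) → ∃ k : ℤ, |(u : ℚ) * v - k| < 1 / M :=
    fun v hv hz => hu1 v (mem_filter.2 ⟨hv, hz⟩)
  set c : ℚ := ∑ x, expo lam phi x (κ x) with hcdef
  set β : Option (Fin m) → ℚ := fun x =>
    (u : ℚ) * expo lam phi x (κ x) - if x ∈ spread lam phi κ then (1 : ℚ) / M else 0 with hβ
  set γ : Option (Fin m) → ℚ := fun x => if x ∈ spread lam phi κ then (2 : ℚ) / M else 0 with hγ
  have hM1 : (0 : ℚ) < 1 / M := by positivity
  have hsM : (s : ℚ) / M ≤ 1 / 6 - 1 / M := by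
    have h1 : (1 : ℚ) / 6 - 1 / M - (s : ℚ) / M = (6 * s + 1) / (6 * M) := by
      field_simp
      rw [hMq]
      ring
    have h2 : (0 : ℚ) < (6 * s + 1) / (6 * M) := by positivity
    linarith
  have hsumβ : ∑ x, β x = u * c - s / M := by
    rw [hβ, sum_sub_distrib, ← mul_sum, ← sum_filter, sum_const, nsmul_eq_mul]
    have h1 : (univ.filter fun x => x ∈ spread lam phi κ) = spread lam phi κ := by
      ext x
      simp
    rw [h1, ← hs]
    ring
  have hsumγ : ∑ x, γ x = 2 * (s / M) := by
    rw [hγ, ← sum_filter, sum_const, nsmul_eq_mul]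
    have h1 : (univ.filter fun x => x ∈ spread lam phi κ) = spread lam phi κ := by
      ext x
      simp
    rw [h1, ← hs]
    ring
  have hf1 := Int.floor_le ((u : ℚ) * c)
  have hf2 := Int.lt_floor_add_one ((u : ℚ) * c)
  have hg1 := hu2 ⌊(u : ℚ) * c⌋
  have hg2 := hu2 (⌊(u : ℚ) * c⌋ + 1)
  rw [abs_of_nonneg (by linarith)] at hg1
  rw [abs_of_nonpos (by push_cast; linarith)] at hg2
  push_cast at hg2
  have harc := arcs_rat hc huN β γ (fun x => by
    simp only [hγ]
    split_ifs
    · positivity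
    · exact le_rfl) ⌊(u : ℚ) * c⌋ (by rw [hsumβ]; linarith) (by
    rw [hsumβ, hsumγ]
    linarith)
  have hzero : ∀ x ∈ (univ : Finset (Option (Fin m))), (univ.filter fun l =>
      γ x < Int.fract ((u : ℚ) * expo lam phi x l - β x)).card = 0 := by
    intro x _
    rw [card_eq_zero, filter_eq_empty_iff]
    intro l _
    rw [not_lt]
    exact small_arc hden hM2 hu1' (hx x) l
  rw [sum_eq_zero hzero] at harc
  omega

end common

end Pool.Agent.Run7.h700.PC
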