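import Pool.Agent.Run7.h700.PC.Abs
import Pool.Agent.Y227.SS.Uniform
import Pool.Agent.W432.HK.Gen

set_option autoImplicit false

/-!
Removing large primes from the denominators of the exponents.
-/

open Finset

namespace Pool.Agent.Run7.h700.PC

open Pool.Agent.Y227.SS Pool.Agent.W432.TC

section den

lemma DenIn.add {S : Set ℕ} {a b : ℚ} (ha : DenIn S a) (hb : DenIn S b) : DenIn S (a + b) := by
  intro p hp h
  rcases (Nat.Prime.dvd_mul hp).1 (h.trans (Rat.add_den_dvd a b)) with h1 | h1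
  · exact ha p hp h1
  · exact hb p hp h1

lemma DenOut.add {S : Set ℕ} {a b : ℚ} (ha : DenOut S a) (hb : DenOut S b) : DenOut S (a + b) := by
  intro p hp h
  rcases (Nat.Prime.dvd_mul hp).1 (h.trans (Rat.add_den_dvd a b)) with h1 | h1
  · exact ha p hp h1
  · exact hb p hp h1

lemma DenIn.mul {S : Set ℕ} {a b : ℚ} (ha : DenIn S a) (hb : DenIn S b) : DenIn S (a * b) := by
  intro p hp h
  rcases (Nat.Prime.dvd_mul hp).1 (h.trans (Rat.mul_den_dvd a b)) with h1 | h1
  · exact ha p hp h1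
  · exact hb p hp h1

lemma DenOut.mul {S : Set ℕ} {a b : ℚ} (ha : DenOut S a) (hb : DenOut S b) : DenOut S (a * b) := by
  intro p hp h
  rcases (Nat.Prime.dvd_mul hp).1 (h.trans (Rat.mul_den_dvd a b)) with h1 | h1
  · exact ha p hp h1
  · exact hb p hp h1

lemma denIn_int (S : Set ℕ) (z : ℤ) : DenIn S (z : ℚ) := by
  intro p hp h
  rw [Rat.den_intCast] at h
  exact absurd (Nat.dvd_one.1 h) hp.one_lt.ne'

lemma denOut_int (S : Set ℕ) (z : ℤ) : DenOut S (z : ℚ) := by
  intro p hp h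
  rw [Rat.den_intCast] at h
  exact absurd (Nat.dvd_one.1 h) hp.one_lt.ne'

lemma DenOut.neg {S : Set ℕ} {a : ℚ} (ha : DenOut S a) : DenOut S (-a) := by
  intro p hp h
  rw [Rat.den_neg_eq_den] at h
  exact ha p hp h

lemma DenIn.sum {ι : Type*} {S : Set ℕ} (s : Finset ι) (f : ι → ℚ) (h : ∀ i ∈ s, DenIn S (f i)) :
    DenIn S (∑ i ∈ s, f i) := by
  classical
  induction s using Finset.induction_on with
  | empty => simpa using denIn_int S 0
  | insert a s ha ih =>
    rw [sum_insert ha]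
    exact (h a (mem_insert_self a s)).add (ih fun i hi => h i (mem_insert_of_mem hi))

lemma DenOut.sum {ι : Type*} {S : Set ℕ} (s : Finset ι) (f : ι → ℚ) (h : ∀ i ∈ s, DenOut S (f i)) :
    DenOut S (∑ i ∈ s, f i) := by
  classical
  induction s using Finset.induction_on with
  | empty => simpa using denOut_int S 0
  | insert a s ha ih =>
    rw [sum_insert ha]
    exact (h a (mem_insert_self a s)).add (ih fun i hi => h i (mem_insert_of_mem hi))

end den

section unit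

variable {I : Type*} [Fintype I]

lemma coprime_prod_den {x : I → ℚ} {u : ℤ} (h : ∀ i, IsCoprime u ((x i).den : ℤ)) :
    IsCoprime u ((∏ i, (x i).den : ℕ) : ℤ) := by
  push_cast
  exact IsCoprime.prod_right fun i _ => h i

lemma prod_den_int (x : I → ℚ) (i : I) : ∃ z : ℤ, ((∏ i, (x i).den : ℕ) : ℚ) * x i = z :=
  (den_dvd_iff (prod_pos fun i _ => (x i).den_pos) (x i)).2 (dvd_prod_of_mem _ (mem_univ i))

lemma prod_den_pos (x : I → ℚ) : 0 < ∏ i, (x i).den := prod_pos fun i _ => (x i).den_pos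

lemma coprime_den_of {N : ℕ} (hN : 0 < N) {x : I → ℚ} (hx : ∀ i, ∃ z : ℤ, (N : ℚ) * x i = z)
    {u : ℤ} (hu : IsCoprime u (N : ℤ)) : IsCoprime u ((∏ i, (x i).den : ℕ) : ℤ) := by
  refine coprime_prod_den fun i => ?_
  have h1 := (den_dvd_iff hN (x i)).1 (hx i)
  exact IsCoprime.of_isCoprime_of_dvd_right hu (by exact_mod_cast h1)

end unit

variable {m n : ℕ}

/-- All conjugates of the point `x` of the torus are the weights of semistable parabolic bundles. -/
def AllSemi (x : ExponentIndex m n → ℚ) : Prop :=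
  ∀ N : ℕ, 0 < N → (∀ i, ∃ z : ℤ, (N : ℚ) * x i = z) → ∀ a : ℤ, IsCoprime a (N : ℤ) →
    SemistableWeights ℂ (fun j l => (a : ℝ) * x (Sum.inl (j, l))) (fun l => (a : ℝ) * x (Sum.inr l))

lemma AllSemi.mk' {x : ExponentIndex m n → ℚ} {N : ℕ} (hN : 0 < N)
    (hx : ∀ i, ∃ z : ℤ, (N : ℚ) * x i = z) (h : ∀ a : ℤ, IsCoprime a (N : ℤ) →
    SemistableWeights ℂ (fun j l => (a : ℝ) * x (Sum.inl (j, l))) (fun l => (a : ℝ) * x (Sum.inr l))) :
    AllSemi x := by
  intro N' hN' hx' a ha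
  -- a unit modulo `N` congruent to `a` modulo the product of the denominators
  set L : ℕ := ∏ i, (x i).den with hL
  have hLpos : 0 < L := prod_den_pos x
  have haL := coprime_den_of hN' hx' ha
  obtain ⟨a', ha', e, he⟩ := lift_unit (q := L) (N := L * N) (Nat.mul_pos hLpos hN)
    (dvd_mul_right _ _) a haL
  have ha'N : IsCoprime a' (N : ℤ) := IsCoprime.of_isCoprime_of_dvd_right ha' (by
    push_cast; exact dvd_mul_left _ _)
  have hcongr : ∀ i, ∃ z : ℤ, (a' : ℝ) * x i = (a : ℝ) * x i + z := by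
    intro i
    obtain ⟨w, hw⟩ := prod_den_int x i
    refine ⟨e * w, ?_⟩
    have h1 : (a' : ℚ) * x i = (a : ℚ) * x i + ((e * w : ℤ) : ℚ) := by
      have h2 : (a' : ℚ) - a = L * e := by exact_mod_cast he
      push_cast
      rw [← hw, ← hL]
      linear_combination x i * h2
    have h3 := congrArg (fun q : ℚ => (q : ℝ)) h1
    push_cast at h3 ⊢
    exact h3
  exact SemistableWeights.congr (h a' ha'N) (fun j l => hcongr _) (fun l => hcongr _)

lemma AllSemi.smul {x : ExponentIndex m n → ℚ} (h : AllSemi x) {u : ℤ}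
    (hu : IsCoprime u ((∏ i, (x i).den : ℕ) : ℤ)) : AllSemi fun i => (u : ℚ) * x i := by
  refine AllSemi.mk' (N := ∏ i, (x i).den) (prod_den_pos x) (fun i => ?_) fun a ha => ?_
  · obtain ⟨z, hz⟩ := prod_den_int x i
    exact ⟨u * z, by push_cast; rw [← hz]; push_cast; ring⟩
  · have h1 := h _ (prod_den_pos x) (prod_den_int x) (a * u) (ha.mul_left hu)
    have e1 : (fun (j : Fin m) (l : Fin n) => (a : ℝ) * (((u : ℚ) * x (Sum.inl (j, l)) : ℚ) : ℝ)) =
        fun j l => ((a * u : ℤ) : ℝ) * x (Sum.inl (j, l)) := by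
      funext j l
      push_cast
      ring
    have e2 : (fun (l : Fin n) => (a : ℝ) * (((u : ℚ) * x (Sum.inr l) : ℚ) : ℝ)) =
        fun l => ((a * u : ℤ) : ℝ) * x (Sum.inr l) := by
      funext l
      push_cast
      ring
    rw [e1, e2]
    exact h1

/-- Finitely many cosets consisting of weights of semistable bundles cover all points with semistable
conjugates. -/
theorem semi_cosets (m n : ℕ) :
    ∃ 𝒟 : Finset (AddSubgroup (ExponentIndex m n → ℤ) × (ExponentIndex m n → ℚ)),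
      (∀ C ∈ 𝒟, (∀ (d : ℤ) (v : ExponentIndex m n → ℤ), d ≠ 0 → d • v ∈ C.1 → v ∈ C.1) ∧
        ∀ z, InCoset C.1 C.2 z →
        SemistableWeights ℂ (fun j l => z (Sum.inl (j, l))) (fun l => z (Sum.inr l))) ∧
      ∀ x : ExponentIndex m n → ℚ, AllSemi x → ∃ C ∈ 𝒟, InCoset C.1 C.2 (fun i => (x i : ℝ)) := by
  classical
  obtain ⟨𝒟, h𝒟, hcov⟩ := general_cosets {x : ExponentIndex m n → ℚ | AllSemi x}
  refine ⟨𝒟, fun C hC => ⟨(h𝒟 C hC).1, fun z hz => ?_⟩, fun x hx => hcov x hx⟩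
  obtain ⟨-, -, -, happ⟩ := h𝒟 C hC
  by_contra hbad
  obtain ⟨δ, hδ, hδW⟩ := semistable_open z hbad
  obtain ⟨x, hxX, -, hxa⟩ := happ 1 (fun _ => z) (fun _ => hz) δ hδ
  obtain ⟨a, ha, hnear⟩ := hxa 0 _ (prod_den_pos x) (prod_den_int x)
  exact hδW _ hnear (hxX _ (prod_den_pos x) (prod_den_int x) a ha)

/-- **Large primes can be removed**: `x = x' + x''`, where the denominators of the `x' i` are composed of
primes in `S`, and those of the `x'' i` are prime to `S`. There are finitely many subtori such that, for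
every `a` prime to the denominators of `x''`, one of them contains `x'` and all its translates by `a x''`
are weights of semistable bundles. -/
theorem drop_large (m n : ℕ) :
    ∃ (B : ℕ) (𝓛 : Finset (AddSubgroup (ExponentIndex m n → ℤ))),
      (∀ L ∈ 𝓛, ∀ (d : ℤ) (v : ExponentIndex m n → ℤ), d ≠ 0 → d • v ∈ L → v ∈ L) ∧
      ∀ x : ExponentIndex m n → ℚ, AllSemi x →
      ∀ S : Set ℕ, (∀ p ∈ S, B < p) → ∀ x' x'' : ExponentIndex m n → ℚ,
      (∀ i, x i = x' i + x'' i) → (∀ i, DenIn S (x' i)) → (∀ i, DenOut S (x'' i)) →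
      ∀ a : ℤ, (∀ i, IsCoprime a ((x'' i).den : ℤ)) →
      ∃ L ∈ 𝓛, (∀ v ∈ L, ∃ w : ℤ, ∑ i, (v i : ℚ) * x' i = w) ∧
        ∀ z : ExponentIndex m n → ℝ,
          (∀ v ∈ L, ∃ w : ℤ, ∑ i, (v i : ℝ) * (z i - (a : ℝ) * x'' i) = w) →
          SemistableWeights ℂ (fun j l => z (Sum.inl (j, l))) (fun l => z (Sum.inr l)) := by
  classical
  obtain ⟨𝒟, h𝒟, hcov⟩ := semi_cosets m n
  refine ⟨∑ C ∈ 𝒟, ∑ i, (C.2 i).den, 𝒟.image Prod.fst, fun L hL => ?_,
    fun x hx S hS x' x'' hsum hin hout a ha => ?_⟩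
  · obtain ⟨C, hC, rfl⟩ := mem_image.1 hL
    exact (h𝒟 C hC).1
  have hCout : ∀ C ∈ 𝒟, ∀ i, DenOut S (C.2 i) := by
    intro C hC i p hp hpd hpS
    have h1 : (C.2 i).den ≤ ∑ i, (C.2 i).den :=
      single_le_sum (f := fun i => (C.2 i).den) (fun _ _ => Nat.zero_le _) (mem_univ i)
    have h2 : ∑ i, (C.2 i).den ≤ ∑ C ∈ 𝒟, ∑ i, (C.2 i).den :=
      single_le_sum (f := fun C : AddSubgroup (ExponentIndex m n → ℤ) × (ExponentIndex m n → ℚ) =>
        ∑ i, (C.2 i).den) (fun _ _ => Nat.zero_le _) hC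
    have h3 := Nat.le_of_dvd (C.2 i).den_pos hpd
    have h4 := hS p hpS
    omega
  -- the product of the denominators of the two parts
  set P₁ : ℕ := ∏ i, (x' i).den with hP1
  set P₂ : ℕ := ∏ i, (x'' i).den with hP2
  have hP1pos : 0 < P₁ := prod_den_pos x'
  have hP2pos : 0 < P₂ := prod_den_pos x''
  obtain ⟨u, hu, e, he⟩ := lift_unit (q := P₂) (N := P₁ * P₂) (Nat.mul_pos hP1pos hP2pos)
    (dvd_mul_left _ _) a (coprime_prod_den ha)
  have hxP : ∀ i, ∃ z : ℤ, ((P₁ * P₂ : ℕ) : ℚ) * x i = z := by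
    intro i
    obtain ⟨z1, hz1⟩ := prod_den_int x' i
    obtain ⟨z2, hz2⟩ := prod_den_int x'' i
    refine ⟨P₂ * z1 + P₁ * z2, ?_⟩
    push_cast
    rw [hsum i, ← hz1, ← hz2, ← hP1, ← hP2]
    ring
  have hux : AllSemi fun i => (u : ℚ) * x i :=
    hx.smul (coprime_den_of (Nat.mul_pos hP1pos hP2pos) hxP hu)
  have huP1 : IsCoprime u (P₁ : ℤ) := IsCoprime.of_isCoprime_of_dvd_right hu (by
    push_cast; exact dvd_mul_right _ _)
  obtain ⟨C, hC, hCx⟩ := hcov _ hux
  rw [inCoset_rat] at hCx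
  have hparts : ∀ v ∈ C.1, (∃ w : ℤ, ∑ i, (v i : ℚ) * x' i = w) ∧
      ∃ w : ℤ, ∑ i, (v i : ℚ) * ((u : ℚ) * x'' i - C.2 i) = w := by
    intro v hv
    obtain ⟨z, hz⟩ := hCx v hv
    have e1 : ∑ i, (v i : ℚ) * ((u : ℚ) * x i - C.2 i) = ∑ i, (v i : ℚ) * ((u : ℚ) * x' i) +
        ∑ i, (v i : ℚ) * ((u : ℚ) * x'' i - C.2 i) := by
      rw [← sum_add_distrib]
      refine sum_congr rfl fun i _ => ?_
      rw [hsum i]
      ring
    have h1 : DenIn S (∑ i, (v i : ℚ) * ((u : ℚ) * x' i)) :=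
      DenIn.sum _ _ fun i _ => (denIn_int S _).mul ((denIn_int S _).mul (hin i))
    have h2 : DenOut S (∑ i, (v i : ℚ) * ((u : ℚ) * x'' i - C.2 i)) := by
      refine DenOut.sum _ _ fun i _ => (denOut_int S _).mul ?_
      rw [sub_eq_add_neg]
      exact ((denOut_int S _).mul (hout i)).add (hCout C hC i).neg
    have h3 : DenOut S (∑ i, (v i : ℚ) * ((u : ℚ) * x' i)) := by
      have h4 : ∑ i, (v i : ℚ) * ((u : ℚ) * x' i) =
          (z : ℚ) + -(∑ i, (v i : ℚ) * ((u : ℚ) * x'' i - C.2 i)) := by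
        rw [← hz, e1]
        ring
      rw [h4]
      exact (denOut_int S z).add h2.neg
    obtain ⟨w, hw⟩ := int_of_in_out h1 h3
    refine ⟨?_, z - w, ?_⟩
    · obtain ⟨s, t, hst⟩ := huP1
      choose g hg using prod_den_int x'
      refine ⟨s * w + t * ∑ i, v i * g i, ?_⟩
      have h5 : (s : ℚ) * u + t * P₁ = 1 := by exact_mod_cast hst
      push_cast
      rw [← hw]
      have h6 : ∑ i, (v i : ℚ) * (g i : ℚ) = P₁ * ∑ i, (v i : ℚ) * x' i := by
        rw [mul_sum]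
        refine sum_congr rfl fun i _ => ?_
        rw [← hg i, ← hP1]
        ring
      have h7 : ∑ i, (v i : ℚ) * ((u : ℚ) * x' i) = u * ∑ i, (v i : ℚ) * x' i := by
        rw [mul_sum]
        exact sum_congr rfl fun i _ => by ring
      rw [h6, h7]
      linear_combination (-(∑ i, (v i : ℚ) * x' i)) * h5
    · push_cast
      rw [← hw, ← hz, e1]
      ring
  refine ⟨C.1, mem_image_of_mem _ hC, fun v hv => (hparts v hv).1, fun z hz => ?_⟩
  refine (h𝒟 C hC).2 z fun v hv => ?_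
  obtain ⟨w1, hw1⟩ := hz v hv
  obtain ⟨w2, hw2⟩ := (hparts v hv).2
  choose g hg using prod_den_int x''
  have hw2' : ∑ i, (v i : ℝ) * ((u : ℝ) * x'' i - C.2 i) = w2 := by
    have := congrArg (fun q : ℚ => (q : ℝ)) hw2
    push_cast at this
    exact this
  have hdiff : ∀ i, (a : ℝ) * x'' i - (u : ℝ) * x'' i = ((-(e * g i) : ℤ) : ℝ) := by
    intro i
    have h1 : (a : ℚ) * x'' i - (u : ℚ) * x'' i = ((-(e * g i) : ℤ) : ℚ) := by
      have h2 : (u : ℚ) - a = P₂ * e := by exact_mod_cast he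
      push_cast
      rw [← hg i, ← hP2]
      linear_combination (-x'' i) * h2
    have := congrArg (fun q : ℚ => (q : ℝ)) h1
    push_cast at this ⊢
    exact this
  refine ⟨w1 + ∑ i, v i * -(e * g i) + w2, ?_⟩
  push_cast
  rw [← hw1, ← hw2', ← sum_add_distrib, ← sum_add_distrib]
  refine sum_congr rfl fun i _ => ?_
  have := hdiff i
  push_cast at this
  linear_combination (v i : ℝ) * this

/-- The parts outside of `S` have semistable conjugates again. -/
lemma allSemi_of {m n : ℕ} {x'' : ExponentIndex m n → ℚ} (h : ∀ a : ℤ,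
    (∀ i, IsCoprime a ((x'' i).den : ℤ)) → ∀ z : ExponentIndex m n → ℝ,
    (∀ i, z i = (a : ℝ) * x'' i) →
    SemistableWeights ℂ (fun j l => z (Sum.inl (j, l))) (fun l => z (Sum.inr l))) :
    AllSemi x'' := by
  intro N hN hx a ha
  exact h a (fun i => IsCoprime.of_isCoprime_of_dvd_right ha (by
    exact_mod_cast (den_dvd_iff hN (x'' i)).1 (hx i))) _ fun _ => rfl

end Pool.Agent.Run7.h700.PC
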