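import Pool.Agent.Run7.h700.PC.VanCan
import Pool.Agent.Run7.h850.PC.Sys

set_option autoImplicit false

/-!
Rank two, four points with non-integral differences of exponents: the matrices `A_p` modulo `p`, and
factorial cancellation.
-/

open Finset

namespace Pool.Agent.Run7.h700.PC

open Polynomial Pool.Agent.TH571.PCV Pool.Agent.Y227.SS Pool.Agent.R340.SY Pool.Agent.W432.PC
open Pool.Agent.N858.CV Pool.Agent.R340.CF Run7.h850.PC

universe u

variable {R : Type u} [CommRing R] [IsDomain R] [CharZero R] [Algebra.FiniteType ℤ R] {n : ℕ}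
  {α : Fin n → R} {A : Fin n → Matrix (Fin 2) (Fin 2) R} {N : ℕ} {ε : ℝ}

lemma bad_of_nonzero (h : NonzeroPCurv α A N ε) : ∃ g : R, g ≠ 0 ∧ BadClasses α A N ε g := by
  obtain ⟨S, g, P₀, hS, hg, hP⟩ := h
  exact ⟨g, hg, S, P₀, hS, fun p hp hpP hv 𝔪 h𝔪 hpm hgm => hP p hp hpP hv 𝔪 hpm hgm⟩

theorem noVanish_of_nonzero (hN : 0 < N) (h : NonzeroPCurv α A N ε) :
    NoVanishClasses α A N ε ∧ (0 < ε → ¬ VanishesAlmost α A) := by
  rcases lt_or_ge 0 ε with hε | hε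
  · have h1 := noVanishClasses hN hε (bad_of_nonzero h)
    exact ⟨h1.1, fun _ => h1.2⟩
  · refine ⟨⟨∅, ?_, fun F _ => ⟨0, fun p _ _ ⟨v, hv, _⟩ => absurd hv (Finset.notMem_empty _)⟩⟩,
      fun h => absurd hε (not_le.2 h)⟩
    have h0 : (0 : ℝ) ≤ N.totient := Nat.cast_nonneg _
    simpa using mul_nonpos_of_nonpos_of_nonneg hε h0

theorem noCancel_of_nonzero (hN : 0 < N) (h : NonzeroPCurv α A N ε) :
    NoCancelClasses α A N ε ∧ (0 < ε → ¬ Cancels α A) := by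
  rcases lt_or_ge 0 ε with hε | hε
  · have h1 := noCancelClasses hN hε (bad_of_nonzero h)
    exact ⟨h1.1, fun _ => h1.2⟩
  · refine ⟨⟨∅, ?_, fun F _ => ⟨0, fun p _ _ ⟨v, hv, _⟩ => absurd hv (Finset.notMem_empty _)⟩⟩,
      fun h => absurd hε (not_le.2 h)⟩
    have h0 : (0 : ℝ) ≤ N.totient := Nat.cast_nonneg _
    simpa using mul_nonpos_of_nonpos_of_nonneg hε h0

/-- The theorem, in one form for both applications. -/
theorem four_points (α : Fin n → R) (hα : ∀ i j, i ≠ j → IsUnit (α i - α j))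
    (A : Fin n → Matrix (Fin 2) (Fin 2) R) (lam : Fin n → Fin 2 → ℚ) (phi : Fin 2 → ℚ)
    (hlam : ∀ j, HasExponents (A j) (lam j)) (hphi : HasExponents (∑ j, A j) phi)
    (hirr : AbsIrreducible α A) (P : Fin 4 → Option (Fin n)) (hP : Function.Injective P)
    (hint : ∀ x ∈ rest P, (diff lam phi x).den = 1) (hθ : ∀ i, (diff lam phi (P i)).den ≠ 1)
    (hs : ∀ κ, (total lam phi P κ).den ≠ 1) :
    (∀ N : ℕ, 0 < N → (∀ j l, ∃ m : ℤ, (N : ℚ) * lam j l = m) →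
      (∀ l, ∃ m : ℤ, (N : ℚ) * phi l = m) →
      NoVanishClasses α A N (3 / 74 * (4 / 15 - ((excS lam phi P : ℚ) : ℝ))) ∧
      NoCancelClasses α A N (3 / 74 * (4 / 15 - ((excS lam phi P : ℚ) : ℝ)))) ∧
    (excS lam phi P < 4 / 15 ∨
      ((∀ κ, 121 ≤ (total lam phi P κ).den) ∧ ∀ i, 121 ≤ (diff lam phi (P i)).den) ∨
      ((∀ κ, Rough7 (total lam phi P κ)) ∧ (∀ i, Rough7 (diff lam phi (P i))) ∧
        ∀ i, (diff lam phi (P i)).den.Prime → 277 ≤ (diff lam phi (P i)).den) →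
      excS lam phi P < 4 / 15 ∧ ¬ VanishesAlmost α A ∧ ¬ Cancels α A) := by
  have key : ∀ N : ℕ, 0 < N → (∀ j l, ∃ m : ℤ, (N : ℚ) * lam j l = m) →
      (∀ l, ∃ m : ℤ, (N : ℚ) * phi l = m) →
      NonzeroPCurv α A N (3 / 74 * (4 / 15 - ((excS lam phi P : ℚ) : ℝ))) := fun N hN h1 h2 =>
    sys_bad α hα A lam phi hlam hphi hirr hP hint hθ hs hN h1 h2
  refine ⟨fun N hN h1 h2 => ⟨(noVanish_of_nonzero hN (key N hN h1 h2)).1,
    (noCancel_of_nonzero hN (key N hN h1 h2)).1⟩, fun h => ?_⟩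
  have hE : excS lam phi P < 4 / 15 := by
    rcases h with h | ⟨h1, h2⟩ | ⟨h1, h2, h3⟩
    · exact h
    · exact excess_large h1 h2
    · exact excess_rough h1 hs h2 hθ h3
  obtain ⟨N, hN, h1, h2⟩ : ∃ N : ℕ, 0 < N ∧ (∀ j l, ∃ m : ℤ, (N : ℚ) * lam j l = m) ∧
      ∀ l, ∃ m : ℤ, (N : ℚ) * phi l = m := by
    have hden : ∀ (M : ℕ) (q : ℚ), q.den ∣ M → ∃ m : ℤ, (M : ℚ) * q = m := by
      rintro M q ⟨k, rfl⟩
      refine ⟨k * q.num, ?_⟩
      have := Rat.mul_den_eq_num q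
      push_cast
      linear_combination (k : ℚ) * this
    refine ⟨(∏ j, ∏ l, (lam j l).den) * ∏ l, (phi l).den, ?_, fun j l => hden _ _ ?_,
      fun l => hden _ _ ?_⟩
    · exact mul_pos (Finset.prod_pos fun j _ => Finset.prod_pos fun l _ => (lam j l).den_pos)
        (Finset.prod_pos fun l _ => (phi l).den_pos)
    · exact ((Finset.dvd_prod_of_mem (fun l => (lam j l).den) (Finset.mem_univ l)).trans
        (Finset.dvd_prod_of_mem (fun j => ∏ l, (lam j l).den) (Finset.mem_univ j))).mul_right _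
    · exact (Finset.dvd_prod_of_mem (fun l => (phi l).den) (Finset.mem_univ l)).mul_left _
  have hE' : ((excS lam phi P : ℚ) : ℝ) < 4 / 15 := by
    have : ((excS lam phi P : ℚ) : ℝ) < ((4 / 15 : ℚ) : ℝ) := by exact_mod_cast hE
    norm_num at this
    exact this
  have hε : (0 : ℝ) < 3 / 74 * (4 / 15 - ((excS lam phi P : ℚ) : ℝ)) := by
    have : (0 : ℝ) < 4 / 15 - ((excS lam phi P : ℚ) : ℝ) := by linarith
    positivity
  exact ⟨hE, (noVanish_of_nonzero hN (key N hN h1 h2)).2 hε,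
    (noCancel_of_nonzero hN (key N hN h1 h2)).2 hε⟩

end Pool.Agent.Run7.h700.PC
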