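import Pool.Agent.Run7.h700.PC.Op

set_option autoImplicit false

/-!
Exponents which are generic at some of the points.
-/

open Finset

namespace Pool.Agent.Run7.h700.PC

open Pool.Agent.Y227.SS Pool.Agent.W432.TC Pool.Agent.R340.SY

section den

lemma DenOut.of_mul {S : Set ℕ} {a : ℤ} {t : ℚ} (h : DenOut S (a * t))
    (ha : IsCoprime a (t.den : ℤ)) : DenOut S t := by
  intro p hp hpt
  refine h p hp ?_
  obtain ⟨z, hz⟩ := (den_dvd_iff ((a : ℚ) * t).den_pos _).2 dvd_rfl
  -- den (a t) * (a t) = z
  have h1 : (t.den : ℤ) ∣ a * ((a : ℚ) * t).den := by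
    obtain ⟨r, s, hrs⟩ := ha
    have h2 : ((a * ((a : ℚ) * t).den : ℤ) : ℚ) * t = z := by
      rw [← hz]; push_cast; ring
    have h3 : ((t.den : ℤ) : ℚ) * t = t.num := by
      push_cast
      exact Rat.den_mul_eq_num t
    have h4 : (a * ((a : ℚ) * t).den : ℤ) * t.num = z * t.den := by
      have h5 : ((a * ((a : ℚ) * t).den : ℤ) : ℚ) * t.num = z * ((t.den : ℤ) : ℚ) := by
        rw [← h3, ← h2]; ring
      exact_mod_cast h5
    have h6 : IsCoprime (t.den : ℤ) t.num := by
      have := t.reduced
      rw [Int.isCoprime_iff_nat_coprime]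
      rw [Int.natAbs_natCast]
      exact this.symm
    exact h6.dvd_of_dvd_mul_right (Dvd.intro_left z h4.symm)
  have h2 : (t.den : ℤ) ∣ (((a : ℚ) * t).den : ℤ) := ha.symm.dvd_of_dvd_mul_left h1
  exact hpt.trans (by exact_mod_cast h2)

lemma DenOut.sub {S : Set ℕ} {a b : ℚ} (ha : DenOut S a) (hb : DenOut S b) : DenOut S (a - b) := by
  rw [sub_eq_add_neg]
  exact ha.add hb.neg

end den

variable {m n : ℕ}

/-- The coefficients of the exponents in a relation. -/
def hat (v : ExponentIndex m n → ℤ) : Option (Fin m) → Fin n → ℤ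
  | some j => fun l => v (Sum.inl (j, l))
  | none => fun l => -v (Sum.inr l)

lemma hat_sum (v : ExponentIndex m n → ℤ) (lam : Fin m → Fin n → ℚ) (phi : Fin n → ℚ) :
    ∑ i, (v i : ℚ) * vec lam phi i = ∑ x, ∑ l, (hat v x l : ℚ) * expo lam phi x l := by
  rw [Fintype.sum_sum_type, Fintype.sum_prod_type, Fintype.sum_option, add_comm]
  congr 1
  refine sum_congr rfl fun l _ => ?_
  simp only [hat, expo, vec, Sum.elim_inr]
  push_cast
  ring

/-- The exponents as a vector. -/
def unexp (y : Option (Fin m) → Fin n → ℝ) : ExponentIndex m n → ℝ :=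
  Sum.elim (fun p => y (some p.1) p.2) fun l => -y none l

lemma hat_sum_real (v : ExponentIndex m n → ℤ) (y : Option (Fin m) → Fin n → ℝ) :
    ∑ i, (v i : ℝ) * unexp y i = ∑ x, ∑ l, (hat v x l : ℝ) * y x l := by
  rw [Fintype.sum_sum_type, Fintype.sum_prod_type, Fintype.sum_option, add_comm]
  congr 1
  refine sum_congr rfl fun l _ => ?_
  simp only [hat, unexp, Sum.elim_inr]
  push_cast
  ring

lemma hat_height (v : ExponentIndex m n → ℤ) (x : Option (Fin m)) (l : Fin n) :
    |hat v x l| ≤ ∑ i, |v i| := by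
  cases x with
  | none =>
    simp only [hat, abs_neg]
    exact single_le_sum (f := fun i => |v i|) (fun _ _ => abs_nonneg _) (mem_univ _)
  | some j =>
    simp only [hat]
    exact single_le_sum (f := fun i => |v i|) (fun _ _ => abs_nonneg _) (mem_univ _)

lemma fg_gens {I : Type*} [Fintype I] (L : AddSubgroup (I → ℤ)) :
    ∃ G : Finset (I → ℤ), AddSubgroup.closure (G : Set (I → ℤ)) = L := by
  have h : (AddSubgroup.toIntSubmodule L).FG := IsNoetherian.noetherian _
  obtain ⟨G, hG⟩ := h
  refine ⟨G, ?_⟩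
  have h1 := congrArg Submodule.toAddSubgroup hG
  rw [Submodule.span_int_eq_addSubgroupClosure] at h1
  simpa using h1

/-- The exponents `E` are generic at the points in `Z`: no relation, with integral coefficients of
absolute value at most `B` and with sum zero at every point in `Z`, has a value whose denominator has no
prime factor in `S`. -/
def GenericAt (E : Option (Fin m) → Fin n → ℚ) (S : Set ℕ) (B : ℕ) (Z : Finset (Option (Fin m))) :
    Prop :=
  ∀ μ : Option (Fin m) → Fin n → ℤ, (∀ x l, |μ x l| ≤ B) → (∀ x, ∑ l, μ x l = 0) →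
    (∀ x, x ∉ Z → ∀ l, μ x l = 0) → DenOut S (∑ x, ∑ l, (μ x l : ℚ) * E x l) → ∀ x l, μ x l = 0

theorem generic_fill (m n : ℕ) : ∃ B : ℕ, ∀ (lam : Fin m → Fin n → ℚ) (phi : Fin n → ℚ) (N : ℕ),
    0 < N → (∀ j l, ∃ z : ℤ, (N : ℚ) * lam j l = z) → (∀ l, ∃ z : ℤ, (N : ℚ) * phi l = z) →
    ConjSemi lam phi N →
    ∀ S : Set ℕ, (∀ p ∈ S, B < p) → ∀ Z : Finset (Option (Fin m)),
    (∀ x, x ∉ Z → ∀ l, DenOut S (expo lam phi x l)) →
    (∀ x ∈ Z, DenOut S (∑ l, expo lam phi x l)) → GenericAt (expo lam phi) S B Z →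
    ∀ a : ℤ, IsCoprime a (N : ℤ) → ∀ y : Option (Fin m) → Fin n → ℝ,
      (∀ x, x ∉ Z → ∀ l, y x l = (a : ℝ) * expo lam phi x l) →
      (∀ x ∈ Z, ∑ l, y x l = (a : ℝ) * ∑ l, (expo lam phi x l : ℝ)) →
      SemistableWeights ℂ (fun j l => y (some j) l) (fun l => -y none l) := by
  classical
  obtain ⟨𝒟, h𝒟, hcov⟩ := semi_cosets m n
  choose G hG using fun L : AddSubgroup (ExponentIndex m n → ℤ) => fg_gens L
  set H : (ExponentIndex m n → ℤ) → ℕ := fun v => (n + 1) * ∑ i, (v i).natAbs with hH
  refine ⟨∑ C ∈ 𝒟, ∑ i, (C.2 i).den + ∑ C ∈ 𝒟, ∑ v ∈ G C.1, H v, ?_⟩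
  intro lam phi N hN hN1 hN2 hc S hS Z hout htr hgen a ha y hy1 hy2
  have hall : AllSemi (vec lam phi) := allSemi_of_conj hN hN1 hN2 hc
  have hNx : ∀ i, ∃ z : ℤ, (N : ℚ) * vec lam phi i = z := by
    rintro (⟨j, l⟩ | l)
    · exact hN1 j l
    · exact hN2 l
  have hax : AllSemi fun i => (a : ℚ) * vec lam phi i := hall.smul (coprime_den_of hN hNx ha)
  obtain ⟨C, hC, hCx⟩ := hcov _ hax
  rw [inCoset_rat] at hCx
  have hCout : ∀ i, DenOut S (C.2 i) := by
    intro i p hp hpd hpS
    have h1 : (C.2 i).den ≤ ∑ i, (C.2 i).den :=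
      single_le_sum (f := fun i => (C.2 i).den) (fun _ _ => Nat.zero_le _) (mem_univ i)
    have h2 : ∑ i, (C.2 i).den ≤ ∑ C ∈ 𝒟, ∑ i, (C.2 i).den :=
      single_le_sum (f := fun C : AddSubgroup (ExponentIndex m n → ℤ) × (ExponentIndex m n → ℚ) =>
        ∑ i, (C.2 i).den) (fun _ _ => Nat.zero_le _) hC
    have h3 := Nat.le_of_dvd (C.2 i).den_pos hpd
    have h4 := hS p hpS
    omega
  -- the relations are constant at the points in `Z`
  have hconst : ∀ v ∈ C.1, ∀ x ∈ Z, ∀ l l', hat v x l = hat v x l' := by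
    have hgens : ∀ v ∈ G C.1, ∀ x ∈ Z, ∀ l l', hat v x l = hat v x l' := by
      intro v hv x hx l l'
      have hvC : v ∈ C.1 := by
        rw [← hG C.1]
        exact AddSubgroup.subset_closure hv
      obtain ⟨z, hz⟩ := hCx v hvC
      set t : ℚ := ∑ x, ∑ l, (hat v x l : ℚ) * expo lam phi x l with ht
      have ht0 : DenOut S t := by
        have h1 : DenOut S ((a : ℚ) * t) := by
          have h2 : (a : ℚ) * t = z + ∑ i, (v i : ℚ) * C.2 i := by
            rw [← hz, ht, ← hat_sum, mul_sum, ← sum_add_distrib]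
            exact sum_congr rfl fun i _ => by ring
          rw [h2]
          exact (denOut_int S z).add (DenOut.sum _ _ fun i _ => (denOut_int S _).mul (hCout i))
        refine h1.of_mul ?_
        have h3 : ∃ w : ℤ, (N : ℚ) * t = w := by
          choose g hg using hNx
          refine ⟨∑ i, v i * g i, ?_⟩
          rw [ht, ← hat_sum, mul_sum]
          push_cast
          refine sum_congr rfl fun i _ => ?_
          rw [← hg i]; ring
        exact IsCoprime.of_isCoprime_of_dvd_right ha (by exact_mod_cast (den_dvd_iff hN t).1 h3)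
      set μ : Option (Fin m) → Fin n → ℤ := fun x l =>
        if x ∈ Z then n * hat v x l - ∑ l', hat v x l' else 0 with hμ
      have hμZ : ∀ x ∈ Z, ∀ l, μ x l = n * hat v x l - ∑ l', hat v x l' := fun x hx l => if_pos hx
      have hμ0 : ∀ x, x ∉ Z → ∀ l, μ x l = 0 := fun x hx l => if_neg hx
      have hHv : H v ≤ ∑ C ∈ 𝒟, ∑ i, (C.2 i).den + ∑ C ∈ 𝒟, ∑ v ∈ G C.1, H v := by
        have h1 : H v ≤ ∑ v ∈ G C.1, H v :=
          single_le_sum (f := H) (fun _ _ => Nat.zero_le _) hv
        have h2 : ∑ v ∈ G C.1, H v ≤ ∑ C ∈ 𝒟, ∑ v ∈ G C.1, H v :=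
          single_le_sum (f := fun C : AddSubgroup (ExponentIndex m n → ℤ) ×
            (ExponentIndex m n → ℚ) => ∑ v ∈ G C.1, H v) (fun _ _ => Nat.zero_le _) hC
        omega
      have hzero := hgen μ (by
          intro x l
          refine le_trans ?_ (by exact_mod_cast hHv : (H v : ℤ) ≤ _)
          have hHv' : (H v : ℤ) = (n + 1) * ∑ i, |v i| := by
            simp only [hH]
            push_cast
            rfl
          rw [hHv']
          by_cases hxZ : x ∈ Z
          · rw [hμZ x hxZ l]
            refine (abs_sub _ _).trans ?_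
            rw [abs_mul, Nat.abs_cast, add_mul, one_mul]
            refine add_le_add (mul_le_mul_of_nonneg_left (hat_height v x l) (Nat.cast_nonneg n)) ?_
            refine (abs_sum_le_sum_abs _ _).trans ?_
            cases x with
            | none =>
              simp only [hat, abs_neg]
              rw [Fintype.sum_sum_type]
              have : 0 ≤ ∑ a₁ : Fin m × Fin n, |v (Sum.inl a₁)| := sum_nonneg fun _ _ => abs_nonneg _
              linarith
            | some j =>
              simp only [hat]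
              rw [Fintype.sum_sum_type, Fintype.sum_prod_type]
              have h1 : ∑ l, |v (Sum.inl (j, l))| ≤ ∑ j, ∑ l, |v (Sum.inl (j, l))| :=
                single_le_sum (f := fun j => ∑ l, |v (Sum.inl (j, l))|)
                  (fun _ _ => sum_nonneg fun _ _ => abs_nonneg _) (mem_univ j)
              have : 0 ≤ ∑ l, |v (Sum.inr l)| := sum_nonneg fun _ _ => abs_nonneg _
              linarith
          · rw [hμ0 x hxZ l, abs_zero]
            have : 0 ≤ ∑ i, |v i| := sum_nonneg fun _ _ => abs_nonneg _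
            positivity)
        (by
          intro x
          by_cases hxZ : x ∈ Z
          · simp only [hμZ x hxZ]
            rw [sum_sub_distrib, ← mul_sum, sum_const, card_univ, Fintype.card_fin, nsmul_eq_mul]
            ring
          · simp only [hμ0 x hxZ, sum_const_zero])
        hμ0
        (by
          have h1 : ∑ x, ∑ l, (μ x l : ℚ) * expo lam phi x l =
              n * t - ∑ x ∈ Zᶜ, ∑ l, (n : ℚ) * (hat v x l * expo lam phi x l) -
                ∑ x ∈ Z, ((∑ l', hat v x l' : ℤ) : ℚ) * ∑ l, expo lam phi x l := by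
            rw [← sum_add_sum_compl Z (fun x => ∑ l, (μ x l : ℚ) * expo lam phi x l)]
            have e1 : ∑ x ∈ Zᶜ, ∑ l, (μ x l : ℚ) * expo lam phi x l = 0 := by
              refine sum_eq_zero fun x hx => sum_eq_zero fun l _ => ?_
              rw [hμ0 x (mem_compl.1 hx) l]
              simp
            have e2 : ∑ x ∈ Z, ∑ l, (μ x l : ℚ) * expo lam phi x l =
                ∑ x ∈ Z, ∑ l, (n : ℚ) * (hat v x l * expo lam phi x l) -
                ∑ x ∈ Z, ((∑ l', hat v x l' : ℤ) : ℚ) * ∑ l, expo lam phi x l := by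
              rw [← sum_sub_distrib]
              refine sum_congr rfl fun x hx => ?_
              rw [mul_sum, ← sum_sub_distrib]
              refine sum_congr rfl fun l _ => ?_
              rw [hμZ x hx l]
              push_cast
              ring
            have e3 : (n : ℚ) * t = ∑ x ∈ Z, ∑ l, (n : ℚ) * (hat v x l * expo lam phi x l) +
                ∑ x ∈ Zᶜ, ∑ l, (n : ℚ) * (hat v x l * expo lam phi x l) := by
              rw [sum_add_sum_compl Z (fun x => ∑ l, (n : ℚ) * (hat v x l * expo lam phi x l)), ht,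
                mul_sum]
              exact sum_congr rfl fun x _ => mul_sum _ _ _
            rw [e1, e2, e3]
            ring
          rw [h1]
          refine ((((denOut_int S n).mul ht0).sub (DenOut.sum _ _ fun x hx => DenOut.sum _ _
            fun l _ => ?_)).sub (DenOut.sum _ _ fun x hx => (denOut_int S _).mul (htr x hx)))
          exact (denOut_int S n).mul ((denOut_int S _).mul (hout x (mem_compl.1 hx) l)))
      have h1 := hzero x l
      have h2 := hzero x l'
      rw [hμZ x hx] at h1 h2
      have h3 : (n : ℤ) * hat v x l = n * hat v x l' := by linarith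
      have hn0 : (n : ℤ) ≠ 0 := by
        have : 0 < n := lt_of_le_of_lt (Nat.zero_le _) l.isLt
        exact_mod_cast this.ne'
      exact mul_left_cancel₀ hn0 h3
    intro v hv
    rw [← hG C.1] at hv
    induction hv using AddSubgroup.closure_induction with
    | mem v hv => exact hgens v hv
    | zero =>
      intro x _ l l'
      cases x <;> simp [hat]
    | add v w _ _ h1 h2 =>
      intro x hx l l'
      have e : ∀ l, hat (v + w) x l = hat v x l + hat w x l := by
        intro l
        cases x <;> simp only [hat, Pi.add_apply] <;> ring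
      rw [e, e, h1 x hx l l', h2 x hx l l']
    | neg v _ h1 =>
      intro x hx l l'
      have e : ∀ l, hat (-v) x l = -hat v x l := by
        intro l
        cases x <;> simp only [hat, Pi.neg_apply]
      rw [e, e, h1 x hx l l']
  -- the point `y` is in the coset
  have hyC : InCoset C.1 C.2 (unexp y) := by
    intro v hv
    obtain ⟨z, hz⟩ := hCx v hv
    refine ⟨z, ?_⟩
    have hz' : ∑ i, (v i : ℝ) * ((a : ℝ) * vec lam phi i - C.2 i) = z := by
      have := congrArg (fun q : ℚ => (q : ℝ)) hz
      push_cast at this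
      exact this
    rw [← hz']
    have h1 : ∑ i, (v i : ℝ) * unexp y i = (a : ℝ) * ∑ i, (v i : ℝ) * vec lam phi i := by
      have h2 : ∑ i, (v i : ℝ) * (vec lam phi i : ℝ) =
          ∑ x, ∑ l, (hat v x l : ℝ) * (expo lam phi x l : ℝ) := by
        have := congrArg (fun q : ℚ => (q : ℝ)) (hat_sum v lam phi)
        push_cast at this
        exact this
      rw [h2, hat_sum_real, mul_sum]
      refine sum_congr rfl fun x _ => ?_
      by_cases hx : x ∈ Z
      · rcases Nat.eq_zero_or_pos n with hn | hn
        · subst hn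
          simp
        · set l0 : Fin n := ⟨0, hn⟩
          have e1 : ∀ l, (hat v x l : ℝ) = hat v x l0 := fun l => by
            exact_mod_cast hconst v hv x hx l l0
          simp only [e1]
          rw [← mul_sum, ← mul_sum, hy2 x hx]
          ring
      · rw [mul_sum]
        refine sum_congr rfl fun l _ => ?_
        rw [hy1 x hx l]
        ring
    have e1 : ∑ i, (v i : ℝ) * (unexp y i - C.2 i) =
        ∑ i, (v i : ℝ) * unexp y i - ∑ i, (v i : ℝ) * (C.2 i : ℝ) := by
      rw [← sum_sub_distrib]
      exact sum_congr rfl fun i _ => by ring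
    rw [e1, h1, mul_sum, ← sum_sub_distrib]
    exact sum_congr rfl fun i _ => by ring
  exact (h𝒟 C hC).2 _ hyC

end Pool.Agent.Run7.h700.PC
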