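import Pool.Agent.Run7.h700.PC.Generic

set_option autoImplicit false

/-!
Exponents which are generic at some of the points: numerical consequences.
-/

open Finset

namespace Pool.Agent.Run7.h700.PC

open Pool.Agent.Y227.SS Pool.Agent.W432.TC Pool.Agent.R340.SY

section num

variable {Y : Type*} [Fintype Y] [DecidableEq Y] {n : ℕ}

/-- The exponents at `x` are, modulo the integers, the numbers `c + j / n`, `j = 0, ..., n - 1`, for some
`c`: their differences are multiples of `1 / n`, and they are not integers. -/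
def FullCoset (E : Fin n → ℚ) : Prop :=
  ∀ k l, (∃ z : ℤ, (n : ℚ) * (E k - E l) = z) ∧ (k ≠ l → (E k - E l).den ≠ 1)

/-- The number of the pairs of exponents whose difference is not an integer. -/
def nonint (E : Fin n → ℚ) : ℕ := (univ.filter fun q : Fin n × Fin n => (E q.1 - E q.2).den ≠ 1).card

/-- The sum of the fractional parts of the differences with the `k`-th exponent. -/
def fs (E : Fin n → ℚ) (k : Fin n) : ℚ := ∑ l, Int.fract (E l - E k)

lemma fract_add_neg (t : ℚ) : Int.fract t + Int.fract (-t) = if t.den ≠ 1 then 1 else 0 := by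
  split_ifs with h
  · have h1 : Int.fract t ≠ 0 := by
      intro h0
      apply h
      rw [den_one_iff]
      refine ⟨⌊t⌋, ?_⟩
      have h1 := Int.floor_add_fract t
      rw [h0, add_zero] at h1
      exact h1.symm
    rw [Int.fract_neg h1]
    ring
  · rw [not_not] at h
    obtain ⟨z, rfl⟩ := (den_one_iff _).1 h
    have h2 : -(z : ℚ) = ((-z : ℤ) : ℚ) := by push_cast; rfl
    rw [h2, Int.fract_intCast, Int.fract_intCast]
    ring

lemma sum_fs (E : Fin n → ℚ) : 2 * ∑ k, fs E k = nonint E := by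
  have h1 : ∑ k, fs E k = ∑ q : Fin n × Fin n, Int.fract (E q.2 - E q.1) := by
    rw [Fintype.sum_prod_type]
    rfl
  have h2 : ∑ k, fs E k = ∑ q : Fin n × Fin n, Int.fract (-(E q.2 - E q.1)) := by
    rw [h1, ← Equiv.sum_comp (Equiv.prodComm (Fin n) (Fin n))]
    refine sum_congr rfl fun q _ => ?_
    simp only [Equiv.prodComm_apply, Prod.fst_swap, Prod.snd_swap]
    congr 1
    ring
  have h3 : 2 * ∑ k, fs E k = ∑ q : Fin n × Fin n,
      (Int.fract (E q.2 - E q.1) + Int.fract (-(E q.2 - E q.1))) := by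
    rw [sum_add_distrib, ← h1, ← h2]
    ring
  rw [h3]
  simp only [fract_add_neg]
  rw [← sum_filter, sum_const, nsmul_eq_mul, mul_one, nonint]
  congr 1
  refine card_bij (fun q _ => q.swap) ?_ ?_ ?_
  · intro q hq
    simpa using hq
  · intro q _ q' _ h
    exact Prod.swap_injective h
  · intro q hq
    exact ⟨q.swap, by simpa using hq, by simp⟩

lemma nonint_le (E : Fin n → ℚ) : nonint E ≤ n * (n - 1) := by
  have h1 : nonint E ≤ (univ : Finset (Fin n)).offDiag.card := by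
    refine card_le_card fun q hq => ?_
    rw [mem_offDiag]
    refine ⟨mem_univ _, mem_univ _, ?_⟩
    intro h
    have h2 := (mem_filter.1 hq).2
    rw [h, sub_self] at h2
    exact h2 rfl
  rw [offDiag_card, card_univ, Fintype.card_fin] at h1
  rwa [Nat.mul_sub, mul_one]

lemma full_of {E : Fin n → ℚ} (h1 : nonint E = n * (n - 1)) {c : ℚ} (h2 : ∀ k, fs E k = c) :
    FullCoset E := by
  intro k l
  constructor
  · have e : ∀ k, fs E k = ∑ l, E l - n * E k - ((∑ l, ⌊E l - E k⌋ : ℤ) : ℚ) := by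
      intro k
      unfold fs
      push_cast
      have e1 : (n : ℚ) * E k = ∑ _l : Fin n, E k := by
        rw [sum_const, card_univ, Fintype.card_fin, nsmul_eq_mul]
      rw [e1, ← sum_sub_distrib, ← sum_sub_distrib]
      rfl
    have h3 := e k
    have h4 := e l
    rw [h2 k] at h3
    rw [h2 l] at h4
    refine ⟨∑ l', ⌊E l' - E l⌋ - ∑ l', ⌊E l' - E k⌋, ?_⟩
    push_cast at h3 h4 ⊢
    linarith
  · intro hkl
    have h3 : (univ.filter fun q : Fin n × Fin n => (E q.1 - E q.2).den ≠ 1) =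
        (univ : Finset (Fin n)).offDiag := by
      refine eq_of_subset_of_card_le (fun q hq => ?_) ?_
      · rw [mem_offDiag]
        refine ⟨mem_univ _, mem_univ _, ?_⟩
        intro h
        have h2 := (mem_filter.1 hq).2
        rw [h, sub_self] at h2
        exact h2 rfl
      · rw [offDiag_card, card_univ, Fintype.card_fin]
        have h4 : (univ.filter fun q : Fin n × Fin n => (E q.1 - E q.2).den ≠ 1).card =
            n * (n - 1) := h1
        rw [h4, Nat.mul_sub, mul_one]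
    have h4 : (k, l) ∈ (univ : Finset (Fin n)).offDiag :=
      mem_offDiag.2 ⟨mem_univ _, mem_univ _, hkl⟩
    rw [← h3] at h4
    exact (mem_filter.1 h4).2

/-- The inequalities for the points in `T`. -/
def Wide (E : Y → Fin n → ℚ) (T : Finset Y) : Prop :=
  ∀ κ : Y → Fin n, (n : ℚ) - 1 ≤ ∑ p ∈ T, fs (E p) (κ p)

omit [Fintype Y] [DecidableEq Y] in
/-- The number of pairs with nonintegral differences. -/
lemma Wide.count {E : Y → Fin n → ℚ} {T : Finset Y} (h : Wide E T) :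
    2 * (n * (n - 1)) ≤ ∑ p ∈ T, nonint (E p) := by
  rcases Nat.eq_zero_or_pos n with hn | hn
  · subst hn
    simp
  · have h1 : ∑ _k : Fin n, ((n : ℚ) - 1) ≤ ∑ k, ∑ p ∈ T, fs (E p) k :=
      sum_le_sum fun k _ => h fun _ => k
    rw [sum_const, card_univ, Fintype.card_fin, nsmul_eq_mul, sum_comm] at h1
    have h2 : 2 * ∑ p ∈ T, ∑ k, fs (E p) k = ∑ p ∈ T, (nonint (E p) : ℚ) := by
      rw [mul_sum]
      exact sum_congr rfl fun p _ => sum_fs (E p)
    have h3 : (((2 * (n * (n - 1)) : ℕ)) : ℚ) ≤ ((∑ p ∈ T, nonint (E p) : ℕ) : ℚ) := by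
      push_cast
      rw [Nat.cast_sub hn, ← h2]
      push_cast
      linarith
    exact_mod_cast h3

/-- Two points. -/
lemma Wide.two {E : Y → Fin n → ℚ} {T : Finset Y} (h : Wide E T) {z₁ z₂ : Y} (hz : z₁ ≠ z₂)
    (hT : ∀ p ∈ T, p ≠ z₁ → p ≠ z₂ → ∀ k l, (E p k - E p l).den = 1) :
    (z₁ ∈ T ∧ FullCoset (E z₁) ∧ z₂ ∈ T ∧ FullCoset (E z₂)) ∨ n ≤ 1 := by
  rcases Nat.lt_or_ge 1 n with hn | hn
  swap
  · exact Or.inr hn
  left
  have hzero : ∀ p ∈ T, p ≠ z₁ → p ≠ z₂ → ∀ k, fs (E p) k = 0 := by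
    intro p hp h1 h2 k
    refine sum_eq_zero fun l _ => ?_
    obtain ⟨z, hz⟩ := (den_one_iff _).1 (hT p hp h1 h2 l k)
    rw [hz, Int.fract_intCast]
  have hfs0 : ∀ (E : Fin n → ℚ) k, 0 ≤ fs E k := fun E k => sum_nonneg fun _ _ => Int.fract_nonneg _
  -- the inequality for the two points
  have key : ∀ k₁ k₂, (n : ℚ) - 1 ≤ (if z₁ ∈ T then fs (E z₁) k₁ else 0) +
      (if z₂ ∈ T then fs (E z₂) k₂ else 0) := by
    intro k₁ k₂
    refine (h fun p => if p = z₁ then k₁ else k₂).trans (le_of_eq ?_)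
    have h1 : ∀ p ∈ T, fs (E p) (if p = z₁ then k₁ else k₂) =
        (if p = z₁ then fs (E z₁) k₁ else 0) + (if p = z₂ then fs (E z₂) k₂ else 0) := by
      intro p hp
      by_cases e1 : p = z₁
      · subst e1
        simp [hz]
      · by_cases e2 : p = z₂
        · subst e2
          simp [e1]
        · simp only [if_neg e1, if_neg e2, hzero p hp e1 e2, add_zero]
    rw [sum_congr rfl h1, sum_add_distrib, sum_ite_eq', sum_ite_eq']
  have hF : ∀ E : Fin n → ℚ, ∑ k, fs E k ≤ n * (n - 1) / 2 := by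
    intro E
    have h1 := sum_fs E
    have h2 : ((nonint E : ℕ) : ℚ) ≤ ((n * (n - 1) : ℕ) : ℚ) := by exact_mod_cast nonint_le E
    rw [Nat.cast_mul, Nat.cast_sub hn.le] at h2
    push_cast at h2
    linarith
  set f₁ : Fin n → ℚ := fun k => if z₁ ∈ T then fs (E z₁) k else 0 with hf1
  set f₂ : Fin n → ℚ := fun k => if z₂ ∈ T then fs (E z₂) k else 0 with hf2
  have hn' : (2 : ℚ) ≤ n := by exact_mod_cast hn
  have hpos : (0 : ℚ) < n * (n - 1) / 2 := by
    have : (0 : ℚ) < n * (n - 1) := mul_pos (by linarith) (by linarith)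
    linarith
  have hs1 : ∑ k, f₁ k ≤ n * (n - 1) / 2 := by
    simp only [hf1]
    split_ifs
    · exact hF _
    · rw [sum_const_zero]; exact hpos.le
  have hs2 : ∑ k, f₂ k ≤ n * (n - 1) / 2 := by
    simp only [hf2]
    split_ifs
    · exact hF _
    · rw [sum_const_zero]; exact hpos.le
  have hcard : ∀ c : ℚ, ∑ _k : Fin n, c = n * c := fun c => by
    rw [sum_const, card_univ, Fintype.card_fin, nsmul_eq_mul]
  have htot : ∑ k₁, ∑ k₂, (f₁ k₁ + f₂ k₂ - ((n : ℚ) - 1)) =
      n * ∑ k, f₁ k + n * ∑ k, f₂ k - n * (n * (n - 1)) := by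
    have e1 : ∀ k₁, ∑ k₂, (f₁ k₁ + f₂ k₂ - ((n : ℚ) - 1)) =
        n * f₁ k₁ + ∑ k, f₂ k - n * (n - 1) := by
      intro k₁
      rw [sum_sub_distrib, sum_add_distrib, hcard, hcard]
    simp only [e1]
    rw [sum_sub_distrib, sum_add_distrib, hcard, hcard, ← mul_sum]
  have hnn : (0 : ℚ) < n := by linarith
  have hle : ∑ k₁, ∑ k₂, (f₁ k₁ + f₂ k₂ - ((n : ℚ) - 1)) ≤ 0 := by
    rw [htot]
    nlinarith
  have heq : ∀ k₁ k₂, f₁ k₁ + f₂ k₂ - ((n : ℚ) - 1) = 0 := by
    have hnon : ∀ k₁ k₂, 0 ≤ f₁ k₁ + f₂ k₂ - ((n : ℚ) - 1) := fun k₁ k₂ => by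
      have := key k₁ k₂
      simp only [hf1, hf2]
      linarith
    have h0 : ∑ k₁, ∑ k₂, (f₁ k₁ + f₂ k₂ - ((n : ℚ) - 1)) = 0 :=
      le_antisymm hle (sum_nonneg fun k₁ _ => sum_nonneg fun k₂ _ => hnon k₁ k₂)
    intro k₁ k₂
    have h1 := (sum_eq_zero_iff_of_nonneg (fun k₁ _ => sum_nonneg fun k₂ _ => hnon k₁ k₂)).1 h0 k₁
      (mem_univ _)
    exact (sum_eq_zero_iff_of_nonneg (fun k₂ _ => hnon k₁ k₂)).1 h1 k₂ (mem_univ _)
  have htot0 : n * ∑ k, f₁ k + n * ∑ k, f₂ k - n * (n * (n - 1) : ℚ) = 0 := by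
    rw [← htot]
    exact sum_eq_zero fun k₁ _ => sum_eq_zero fun k₂ _ => heq k₁ k₂
  have hF1 : ∑ k, f₁ k = n * (n - 1) / 2 := by nlinarith
  have hF2 : ∑ k, f₂ k = n * (n - 1) / 2 := by nlinarith
  have hz1 : z₁ ∈ T := by
    by_contra hcon
    simp only [hf1, if_neg hcon, sum_const_zero] at hF1
    linarith
  have hz2 : z₂ ∈ T := by
    by_contra hcon
    simp only [hf2, if_neg hcon, sum_const_zero] at hF2
    linarith
  have hni : ∀ E : Fin n → ℚ, ∑ k, fs E k = n * (n - 1) / 2 → nonint E = n * (n - 1) := by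
    intro E hE
    have h1 := sum_fs E
    have h2 : ((nonint E : ℕ) : ℚ) = ((n * (n - 1) : ℕ) : ℚ) := by
      rw [Nat.cast_mul, Nat.cast_sub hn.le]
      push_cast
      linarith
    exact_mod_cast h2
  have k0 : Fin n := ⟨0, by omega⟩
  refine ⟨hz1, full_of (hni _ (by simpa only [hf1, if_pos hz1] using hF1)) (c := n - 1 - f₂ k0)
    (fun k => ?_), hz2, full_of (hni _ (by simpa only [hf2, if_pos hz2] using hF2))
    (c := n - 1 - f₁ k0) fun k => ?_⟩
  · have := heq k k0
    simp only [hf1, if_pos hz1] at this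
    linarith
  · have := heq k0 k
    simp only [hf2, if_pos hz2] at this
    linarith

end num

section wide

variable {m n : ℕ}

/-- **The exponents at the other points**, if the exponents at the points in `Z` are free. -/
theorem wide_of_free {E : Option (Fin m) → Fin n → ℚ} {Z : Finset (Option (Fin m))} (hZ : Z.Nonempty)
    (a : ℤ) (h : ∀ y : Option (Fin m) → Fin n → ℝ,
      (∀ x, x ∉ Z → ∀ l, y x l = (a : ℝ) * E x l) →
      (∀ x ∈ Z, ∑ l, y x l = (a : ℝ) * ∑ l, (E x l : ℝ)) →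
      SemistableWeights ℂ (fun j l => y (some j) l) (fun l => -y none l)) :
    Wide (fun x l => (a : ℚ) * E x l) Zᶜ := by
  classical
  intro κ
  obtain ⟨z₀, hz₀⟩ := hZ
  have hn : 0 < n := lt_of_le_of_lt (Nat.zero_le _) (κ z₀).isLt
  have hn0 : (n : ℝ) ≠ 0 := by exact_mod_cast hn.ne'
  have hnpos : (0 : ℝ) < n := by exact_mod_cast hn
  set s : Option (Fin m) → ℝ := fun x => (a : ℝ) * (∑ l, (E x l : ℝ)) / n with hs
  set w : ℝ := ∑ x ∈ Z, s x + ∑ x ∈ Zᶜ, (a : ℝ) * E x (κ x) with hw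
  set j : ℤ := 1 - ⌈(n : ℝ) * w⌉ with hj
  set y : Option (Fin m) → Fin n → ℝ := fun x l =>
    if x ∈ Z then (if x = z₀ then s x + j / n - (if l = κ z₀ then (j : ℝ) else 0) else s x)
    else (a : ℝ) * E x l with hy
  have hy0 : ∀ x, x ∉ Z → ∀ l, y x l = (a : ℝ) * E x l := fun x hx l => if_neg hx
  have hcard : ∀ c : ℝ, ∑ _k : Fin n, c = n * c := fun c => by
    rw [sum_const, card_univ, Fintype.card_fin, nsmul_eq_mul]
  have hns : ∀ x, (n : ℝ) * s x = (a : ℝ) * ∑ l, (E x l : ℝ) := fun x => by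
    simp only [hs]
    field_simp
  have hy1 : ∀ x ∈ Z, ∑ l, y x l = (a : ℝ) * ∑ l, (E x l : ℝ) := by
    intro x hx
    by_cases hxz : x = z₀
    · have e : ∀ l, y x l = s x + j / n - (if l = κ z₀ then (j : ℝ) else 0) := fun l => by
        simp only [hy, if_pos hx, if_pos hxz]
      simp only [e]
      rw [sum_sub_distrib, hcard, sum_ite_eq' univ (κ z₀), if_pos (mem_univ _), mul_add, hns]
      field_simp
      ring
    · have e : ∀ l, y x l = s x := fun l => by simp only [hy, if_pos hx, if_neg hxz]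
      simp only [e]
      rw [hcard, hns]
  set β : Option (Fin m) → ℝ := fun x =>
    if x ∈ Z then (if x = z₀ then s x + j / n else s x) else (a : ℝ) * E x (κ x) with hβ
  have hsumβ : ∑ x, β x = w + j / n := by
    rw [← sum_add_sum_compl Z β]
    have e1 : ∑ x ∈ Z, β x = ∑ x ∈ Z, s x + j / n := by
      have e2 : ∀ x ∈ Z, β x = s x + if x = z₀ then (j : ℝ) / n else 0 := by
        intro x hx
        simp only [hβ, if_pos hx]
        split_ifs <;> ring
      rw [sum_congr rfl e2, sum_add_distrib, sum_ite_eq', if_pos hz₀]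
    have e3 : ∑ x ∈ Zᶜ, β x = ∑ x ∈ Zᶜ, (a : ℝ) * E x (κ x) :=
      sum_congr rfl fun x hx => by simp only [hβ, if_neg (mem_compl.1 hx)]
    rw [e1, e3, hw]
    ring
  have hnb : (n : ℝ) * ∑ x, β x = n * w + j := by
    rw [hsumβ]
    field_simp
  have hc1 := Int.le_ceil ((n : ℝ) * w)
  have hc2 := Int.ceil_lt_add_one ((n : ℝ) * w)
  have hjr : (j : ℝ) = 1 - (⌈(n : ℝ) * w⌉ : ℤ) := by rw [hj]; push_cast; rfl
  have hb0 : (0 : ℝ) < ∑ x, β x := by
    have : (0 : ℝ) < n * ∑ x, β x := by rw [hnb, hjr]; linarith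
    exact pos_of_mul_pos_right this hnpos.le
  have hineq := sum_fract_ge (h y hy0 hy1) β 0 (by push_cast; exact hb0)
  have hwts : ∀ p l, wts (fun j l => y (some j) l) (fun l => -y none l) p l = y p l := by
    intro p l
    cases p <;> simp [wts]
  simp only [hwts] at hineq
  have hsplit : ∑ p, ∑ l, Int.fract (y p l - β p) =
      ∑ p ∈ Zᶜ, ∑ l, Int.fract ((a : ℝ) * E p l - (a : ℝ) * E p (κ p)) := by
    rw [← sum_add_sum_compl Z (fun p => ∑ l, Int.fract (y p l - β p))]
    have e1 : ∑ p ∈ Z, ∑ l, Int.fract (y p l - β p) = 0 := by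
      refine sum_eq_zero fun p hp => sum_eq_zero fun l _ => ?_
      by_cases hpz : p = z₀
      · simp only [hy, hβ, if_pos hp, if_pos hpz]
        split_ifs
        · have : s p + (j : ℝ) / n - j - (s p + j / n) = ((-j : ℤ) : ℝ) := by push_cast; ring
          rw [this, Int.fract_intCast]
        · have : s p + (j : ℝ) / n - 0 - (s p + j / n) = 0 := by ring
          rw [this, Int.fract_zero]
      · simp only [hy, hβ, if_pos hp, if_neg hpz, sub_self, Int.fract_zero]
    rw [e1, zero_add]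
    refine sum_congr rfl fun p hp => sum_congr rfl fun l _ => ?_
    simp only [hy, hβ, if_neg (mem_compl.1 hp)]
  rw [hsplit] at hineq
  have hge : (n : ℝ) - 1 ≤ ∑ p ∈ Zᶜ, ∑ l, Int.fract ((a : ℝ) * E p l - (a : ℝ) * E p (κ p)) := by
    refine le_trans ?_ hineq
    have : (n : ℝ) * (((0 : ℤ) : ℝ) + 1 - ∑ x, β x) = n - (n * w + j) := by
      rw [← hnb]; push_cast; ring
    rw [this, hjr]
    linarith
  have hcast : ((∑ p ∈ Zᶜ, fs (fun l => (a : ℚ) * E p l) (κ p) : ℚ) : ℝ) =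
      ∑ p ∈ Zᶜ, ∑ l, Int.fract ((a : ℝ) * E p l - (a : ℝ) * E p (κ p)) := by
    unfold fs
    push_cast
    rfl
  have hfin : (((n : ℚ) - 1 : ℚ) : ℝ) ≤ ((∑ p ∈ Zᶜ, fs (fun l => (a : ℚ) * E p l) (κ p) : ℚ) : ℝ) := by
    rw [hcast]
    push_cast
    exact hge
  exact_mod_cast hfin

end wide

end Pool.Agent.Run7.h700.PC
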