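import Pool.Agent.Run7.h700.PC.Two
import Pool.Agent.Run7.h700.PC.Coset

set_option autoImplicit false

/-!
The consequences for tuples of exponents with semistable conjugates.
-/

open Finset

namespace Pool.Agent.Run7.h700.PC

open Pool.Agent.Y227.SS Pool.Agent.W432.TC Pool.Agent.R340.SY

variable {m n : ℕ}

/-- The exponents as a point of the torus: `lam j l` at the finite points and `phi l` at infinity. -/
def vec (lam : Fin m → Fin n → ℚ) (phi : Fin n → ℚ) : ExponentIndex m n → ℚ :=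
  Sum.elim (fun p => lam p.1 p.2) phi

/-- At the point `x` every difference `e x l - e x (κ x)` is an integer or congruent to an element of
`V` modulo the integers. -/
def DiffIn (lam : Fin m → Fin n → ℚ) (phi : Fin n → ℚ) (κ : Option (Fin m) → Fin n) (V : Finset ℚ)
    (x : Option (Fin m)) : Prop :=
  ∀ l, (expo lam phi x l - expo lam phi x (κ x)).den = 1 ∨
    ∃ v ∈ V, ∃ j : ℤ, expo lam phi x l - expo lam phi x (κ x) = v + j

lemma expo_den {N : ℕ} {lam : Fin m → Fin n → ℚ} {phi : Fin n → ℚ}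
    (h1 : ∀ j l, ∃ z : ℤ, (N : ℚ) * lam j l = z) (h2 : ∀ l, ∃ z : ℤ, (N : ℚ) * phi l = z) :
    ∀ p l, ∃ z : ℤ, (N : ℚ) * expo lam phi p l = z := by
  intro p l
  cases p with
  | none =>
    obtain ⟨z, hz⟩ := h2 l
    exact ⟨-z, by simp only [expo]; push_cast; rw [← hz]; ring⟩
  | some j => exact h1 j l

lemma allSemi_of_conj {N : ℕ} (hN : 0 < N) {lam : Fin m → Fin n → ℚ} {phi : Fin n → ℚ}
    (h1 : ∀ j l, ∃ z : ℤ, (N : ℚ) * lam j l = z) (h2 : ∀ l, ∃ z : ℤ, (N : ℚ) * phi l = z)
    (hc : ConjSemi lam phi N) : AllSemi (vec lam phi) := by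
  refine AllSemi.mk' hN (fun i => ?_) fun a ha => hc a ha
  rcases i with ⟨j, l⟩ | l
  · exact h1 j l
  · exact h2 l

/-- The uniform part. -/
theorem uniform_part (m n : ℕ) :
    ∃ (B : ℕ) (𝓛 : Finset (AddSubgroup (ExponentIndex m n → ℤ))),
      (∀ L ∈ 𝓛, ∀ (d : ℤ) (v : ExponentIndex m n → ℤ), d ≠ 0 → d • v ∈ L → v ∈ L) ∧
      ∀ (lam : Fin m → Fin n → ℚ) (phi : Fin n → ℚ) (N : ℕ), 0 < N →
      (∀ j l, ∃ z : ℤ, (N : ℚ) * lam j l = z) → (∀ l, ∃ z : ℤ, (N : ℚ) * phi l = z) →
      ConjSemi lam phi N →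
      ∀ S : Set ℕ, (∀ p ∈ S, B < p) → ∀ (lam' lam'' : Fin m → Fin n → ℚ) (phi' phi'' : Fin n → ℚ),
      (∀ j l, lam j l = lam' j l + lam'' j l) → (∀ l, phi l = phi' l + phi'' l) →
      (∀ j l, DenIn S (lam' j l)) → (∀ l, DenIn S (phi' l)) →
      (∀ j l, DenOut S (lam'' j l)) → (∀ l, DenOut S (phi'' l)) →
      (∀ a : ℤ, (∀ j l, IsCoprime a ((lam'' j l).den : ℤ)) →
        (∀ l, IsCoprime a ((phi'' l).den : ℤ)) →
        ∃ L ∈ 𝓛, (∀ v ∈ L, ∃ w : ℤ, ∑ i, (v i : ℚ) * vec lam' phi' i = w) ∧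
          ∀ (x : Fin m → Fin n → ℝ) (y : Fin n → ℝ),
            (∀ v ∈ L, ∃ w : ℤ, ∑ i, (v i : ℝ) *
              (Sum.elim (fun p => x p.1 p.2) y i - (a : ℝ) * vec lam'' phi'' i) = w) →
            SemistableWeights ℂ x y) ∧
      ∀ z₁ z₂ : Option (Fin m), z₁ ≠ z₂ →
        (∀ x, x ≠ z₁ → x ≠ z₂ → ∀ l l', DenIn S (expo lam phi x l - expo lam phi x l')) →
        ∀ (κ : Option (Fin m) → Fin n) (t : ℚ),
          (univ.filter fun l => (expo lam'' phi'' z₁ l - t).den = 1).card =
          (univ.filter fun l => (expo lam'' phi'' z₂ l + t +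
            ∑ x ∈ (univ.erase z₁).erase z₂, expo lam'' phi'' x (κ x)).den = 1).card := by
  classical
  obtain ⟨B, 𝓛, hsat, hB⟩ := drop_large m n
  refine ⟨B, 𝓛, hsat, fun lam phi N hN h1 h2 hc S hS lam' lam'' phi' phi'' hl hp il ip ol op => ?_⟩
  have key := hB (vec lam phi) (allSemi_of_conj hN h1 h2 hc) S hS (vec lam' phi') (vec lam'' phi'')
    (by
      rintro (⟨j, l⟩ | l)
      · exact hl j l
      · exact hp l)
    (by
      rintro (⟨j, l⟩ | l)
      · exact il j l
      · exact ip l)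
    (by
      rintro (⟨j, l⟩ | l)
      · exact ol j l
      · exact op l)
  refine ⟨fun a ha1 ha2 => ?_, fun z₁ z₂ hz hx κ t => ?_⟩
  · obtain ⟨L, hL, hL1, hL2⟩ := key a (by
      rintro (⟨j, l⟩ | l)
      · exact ha1 j l
      · exact ha2 l)
    exact ⟨L, hL, hL1, fun x y hxy => hL2 (Sum.elim (fun p => x p.1 p.2) y) hxy⟩
  · have hall : AllSemi (vec lam'' phi'') := by
      refine allSemi_of fun a ha z hz => ?_
      obtain ⟨L, -, -, hL2⟩ := key a ha
      refine hL2 z fun v _ => ⟨0, ?_⟩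
      simp only [hz, sub_self, mul_zero, sum_const_zero, Int.cast_zero]
    set P₂ : ℕ := ∏ i, (vec lam'' phi'' i).den with hP2
    have hc2 : ConjSemi lam'' phi'' P₂ := fun a ha =>
      hall P₂ (prod_den_pos _) (prod_den_int _) a ha
    have hden := expo_den (lam := lam'') (phi := phi'') (N := P₂)
      (fun j l => prod_den_int (vec lam'' phi'') (Sum.inl (j, l)))
      (fun l => prod_den_int (vec lam'' phi'') (Sum.inr l))
    refine two_eq (prod_den_pos _) hden hc2 hz κ (fun x hx1 hx2 l => ?_) t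
    rw [den_one_iff]
    have hsplit : ∀ l, expo lam phi x l = expo lam' phi' x l + expo lam'' phi'' x l := by
      intro l
      cases x with
      | none => simp only [expo, hp]; ring
      | some j => exact hl j l
    have hin : ∀ l, DenIn S (expo lam' phi' x l) := by
      intro l
      cases x with
      | none =>
        intro p hpp hpd
        simp only [expo, Rat.den_neg_eq_den] at hpd
        exact ip l p hpp hpd
      | some j => exact il j l
    have hout : ∀ l, DenOut S (expo lam'' phi'' x l) := by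
      intro l
      cases x with
      | none => exact (op l).neg
      | some j => exact ol j l
    refine int_of_in_out (S := S) ?_ ?_
    · have e : expo lam'' phi'' x l - expo lam'' phi'' x (κ x) =
          (expo lam phi x l - expo lam phi x (κ x)) +
          (((-1 : ℤ) : ℚ) * expo lam' phi' x l + expo lam' phi' x (κ x)) := by
        rw [hsplit l, hsplit (κ x)]
        push_cast
        ring
      rw [e]
      exact (hx x hx1 hx2 l (κ x)).add (((denIn_int S _).mul (hin l)).add (hin (κ x)))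
    · rw [sub_eq_add_neg]
      exact (hout l).add (hout (κ x)).neg

end Pool.Agent.Run7.h700.PC
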