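import Pool.Agent.Run7.h700.PC.Op
import Pool.Agent.Y227.SO.Uniform

set_option autoImplicit false

/-!
Operators and systems: a positive proportion of bad classes, or semistable conjugates.
-/

open Finset Polynomial

namespace Pool.Agent.Run7.h700.PC

open Pool.Agent.W432.WB Pool.Agent.W432.HK Pool.Agent.W432.TC Pool.Agent.W432.PC
open Pool.Agent.Y227.SS Pool.Agent.Y227.SO Pool.Agent.R340.SY

variable {m n : ℕ}

/-- For every common denominator `N` of the exponents there is a set of at least `ε φ(N)` residue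
classes modulo `N`, prime to `N`, such that for all large primes `p` in these classes the reduction
modulo `p` of `L = ∑ b i * ∂ ^ i` does not have a full basis of rational solutions; and if the
reductions of `L` have full bases of rational solutions for almost all primes then `L` has a full
basis of algebraic solutions. -/
def Excluded (b : Fin (n + 1) → ℤ[X]) (lam : Fin m → Fin n → ℚ) (phi : Fin n → ℚ) (ε : ℝ) : Prop :=
  (∀ N, CommonDen lam phi N → BadPrimes b N ε) ∧ (Cond b → FullAlg b)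

lemma BadPrimes.not_cond {b : Fin (n + 1) → ℤ[X]} {N : ℕ} (hN : 0 < N) {ε : ℝ} (hε : 0 < ε)
    (h : BadPrimes b N ε) : ¬ Cond b := by
  intro hc
  have : NeZero N := ⟨hN.ne'⟩
  obtain ⟨S, P₀, h1, h3⟩ := h
  have hS : S.Nonempty := by
    rw [← Finset.card_pos]
    have h4 : (0 : ℝ) < S.card := lt_of_lt_of_le
      (mul_pos hε (by exact_mod_cast Nat.totient_pos.mpr hN)) h1
    exact_mod_cast h4
  obtain ⟨v, hv⟩ := hS
  set a : ℤ := (((-v⁻¹ : (ZMod N)ˣ) : ZMod N).val : ℤ) with ha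
  have haZ : ((a : ℤ) : ZMod N) = ((-v⁻¹ : (ZMod N)ˣ) : ZMod N) := by
    rw [ha]; push_cast; rw [ZMod.natCast_zmod_val]
  have hcop : IsCoprime a (N : ℤ) := by
    rw [ha]
    exact Nat.isCoprime_iff_coprime.mpr (ZMod.val_coe_unit_coprime _)
  obtain ⟨p, hp1, hp2, hp3, hp4⟩ := cond_infinite hc hN hcop P₀
  refine absurd hp4 (h3 p hp1 ⟨v, hv, ?_⟩ hp3)
  rw [← ZMod.intCast_zmod_eq_zero_iff_dvd] at hp2
  push_cast at hp2
  rw [haZ, Units.val_neg, neg_mul] at hp2
  have h5 : ((v⁻¹ : (ZMod N)ˣ) : ZMod N) * (p : ZMod N) = 1 := by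
    have h6 := eq_neg_of_add_eq_zero_left hp2
    exact neg_injective h6
  calc ((p : ℕ) : ZMod N) = ((v : (ZMod N)ˣ) : ZMod N) *
        (((v⁻¹ : (ZMod N)ˣ) : ZMod N) * (p : ZMod N)) := by
          rw [← mul_assoc, Units.mul_inv, one_mul]
    _ = _ := by rw [h5, mul_one]

lemma exists_den (lam : Fin m → Fin n → ℚ) (phi : Fin n → ℚ) : ∃ N, CommonDen lam phi N :=
  ⟨∏ i, (vec lam phi i).den, prod_den_pos _, fun j l => prod_den_int (vec lam phi) (Sum.inl (j, l)),
    fun l => prod_den_int (vec lam phi) (Sum.inr l)⟩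

/-- The dichotomy for operators. -/
theorem op_or (hm : 1 ≤ m) (hn : 1 ≤ n) : ∃ ε : ℝ, 0 < ε ∧ ∀ (b : Fin (n + 1) → ℤ[X])
    (α : Fin m → AlgebraicClosure ℚ) (lam : Fin m → Fin n → ℚ) (phi : Fin n → ℚ),
    FuchsianWith b α lam phi →
    Excluded b lam phi ε ∨ ∃ N, CommonDen lam phi N ∧ ConjSemi lam phi N := by
  obtain ⟨ε, hε, hgap⟩ := gap_all hm hn
  refine ⟨ε, hε, fun b α lam phi hF => ?_⟩
  by_cases h : ∀ N, CommonDen lam phi N → BadPrimes b N ε
  · refine Or.inl ⟨h, fun hc => ?_⟩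
    obtain ⟨N, hN⟩ := exists_den lam phi
    exact absurd hc (BadPrimes.not_cond hN.1 hε (h N hN))
  · push Not at h
    obtain ⟨N, hN, hbad⟩ := h
    obtain ⟨hb, Q, hFu, hE⟩ := hF
    refine Or.inr ⟨N, hN, fun a ha => ?_⟩
    have hop : OpData b α Q (vec lam phi) N := ⟨hb, hFu, hE, hN.1, by
      rintro (⟨j, l⟩ | l)
      · exact hN.2.1 j l
      · exact hN.2.2 l⟩
    exact (hgap b α Q _ N hop hbad a ha).2.1

end Pool.Agent.Run7.h700.PC
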