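import Pool.Agent.Run7.h700.PC.Abs

set_option autoImplicit false

/-!
Two points with nonintegral differences: the exponents at the two points are inverse to each other.
-/

open Finset

namespace Pool.Agent.Run7.h700.PC

open Pool.Agent.Y227.SS Pool.Agent.R340.SY

variable {m n N : ℕ} {lam : Fin m → Fin n → ℚ} {phi : Fin n → ℚ}

theorem two_le (hN : 0 < N) (hden : ∀ p l, ∃ z : ℤ, (N : ℚ) * expo lam phi p l = z)
    (hc : ConjSemi lam phi N) {z₁ z₂ : Option (Fin m)} (hz : z₁ ≠ z₂)
    (κ : Option (Fin m) → Fin n)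
    (hx : ∀ x, x ≠ z₁ → x ≠ z₂ → ∀ l, (expo lam phi x l - expo lam phi x (κ x)).den = 1) (t : ℚ) :
    (univ.filter fun l => (expo lam phi z₁ l - t).den = 1).card ≤
      (univ.filter fun l => (expo lam phi z₂ l + t +
        ∑ x ∈ (univ.erase z₁).erase z₂, expo lam phi x (κ x)).den = 1).card := by
  classical
  set C : ℚ := ∑ x ∈ (univ.erase z₁).erase z₂, expo lam phi x (κ x) with hC
  set q : ℕ := N * t.den with hq
  have hq0 : 0 < q := Nat.mul_pos hN t.den_pos
  have hq0' : (0 : ℚ) < q := by exact_mod_cast hq0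
  have hqe : ∀ x l, ∃ z : ℤ, (q : ℚ) * expo lam phi x l = z := by
    intro x l
    obtain ⟨z, hz⟩ := hden x l
    refine ⟨z * t.den, ?_⟩
    rw [hq]
    push_cast
    rw [← hz]
    ring
  have hqt : ∃ z : ℤ, (q : ℚ) * t = z := by
    refine ⟨N * t.num, ?_⟩
    rw [hq]
    push_cast
    rw [← Rat.mul_den_eq_num t]
    ring
  have hqC : ∃ z : ℤ, (q : ℚ) * C = z := by
    choose g hg using hqe
    refine ⟨∑ x ∈ (univ.erase z₁).erase z₂, g x (κ x), ?_⟩
    rw [hC, mul_sum]
    push_cast
    exact sum_congr rfl fun x _ => hg x (κ x)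
  set η : ℚ := 1 / (2 * q) with hη
  have hη0 : 0 < η := by positivity
  have hη2 : 2 * η = 1 / q := by rw [hη]; field_simp
  have hq1 : (1 : ℚ) / q ≤ 1 := by
    rw [div_le_one hq0']
    exact_mod_cast hq0
  set β : Option (Fin m) → ℚ := fun x =>
    if x = z₁ then t else if x = z₂ then η - t - C else expo lam phi x (κ x) with hβ
  set γ : Option (Fin m) → ℚ := fun x => if x = z₂ then 1 - 2 * η else 0 with hγ
  have hβ1 : β z₁ = t := if_pos rfl
  have hβ2 : β z₂ = η - t - C := by simp only [hβ, if_neg hz.symm, if_true]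
  have hβx : ∀ x ∈ (univ.erase z₁).erase z₂, β x = expo lam phi x (κ x) := fun x hx => by
    simp only [hβ, if_neg (ne_of_mem_erase (mem_of_mem_erase hx)), if_neg (ne_of_mem_erase hx)]
  have hsplit : ∀ {A : Type} [AddCommMonoid A] (f : Option (Fin m) → A), ∑ x, f x =
      f z₁ + (f z₂ + ∑ x ∈ (univ.erase z₁).erase z₂, f x) := by
    intro A _ f
    rw [← add_sum_erase univ f (mem_univ z₁),
      ← add_sum_erase (univ.erase z₁) f (mem_erase.2 ⟨hz.symm, mem_univ z₂⟩)]
  have hsumβ : ∑ x, β x = η := by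
    rw [hsplit β, hβ1, hβ2, sum_congr rfl hβx, ← hC]
    ring
  have hsumγ : ∑ x, γ x = 1 - 2 * η := by
    rw [hγ, sum_ite_eq' univ z₂, if_pos (mem_univ _)]
  have harc := arcs_rat hc (u := 1) isCoprime_one_left β γ (fun x => by
    simp only [hγ]
    split_ifs
    · linarith
    · exact le_rfl) 0 (by rw [hsumβ]; push_cast; exact hη0) (by
    rw [hsumβ, hsumγ]
    push_cast
    linarith)
  rw [hsplit] at harc
  have h0 : ∑ x ∈ (univ.erase z₁).erase z₂, (univ.filter fun l =>
      γ x < Int.fract (((1 : ℤ) : ℚ) * expo lam phi x l - β x)).card = 0 := by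
    refine sum_eq_zero fun x hxx => ?_
    rw [card_eq_zero, filter_eq_empty_iff]
    intro l _
    have hne2 := ne_of_mem_erase hxx
    have hne1 := ne_of_mem_erase (mem_of_mem_erase hxx)
    obtain ⟨w, hw⟩ := (den_one_iff _).1 (hx x hne1 hne2 l)
    rw [hβx x hxx, not_lt, Int.cast_one, one_mul, hw, Int.fract_intCast]
    simp only [hγ, if_neg hne2]
    exact le_rfl
  have h1 : (univ.filter fun l =>
      γ z₁ < Int.fract (((1 : ℤ) : ℚ) * expo lam phi z₁ l - β z₁)).card +
      (univ.filter fun l => (expo lam phi z₁ l - t).den = 1).card ≤ n := by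
    rw [← card_union_of_disjoint]
    · have h3 := card_le_univ ((univ.filter fun l =>
        γ z₁ < Int.fract (((1 : ℤ) : ℚ) * expo lam phi z₁ l - β z₁)) ∪
        (univ.filter fun l => (expo lam phi z₁ l - t).den = 1))
      rwa [Fintype.card_fin] at h3
    · rw [disjoint_left]
      intro l hl hl2
      have h3 := (mem_filter.1 hl).2
      obtain ⟨w, hw⟩ := (den_one_iff _).1 (mem_filter.1 hl2).2
      rw [hβ1, Int.cast_one, one_mul, hw, Int.fract_intCast] at h3
      simp only [hγ, if_neg hz] at h3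
      exact lt_irrefl _ h3
  have h2 : (univ.filter fun l =>
      γ z₂ < Int.fract (((1 : ℤ) : ℚ) * expo lam phi z₂ l - β z₂)).card ≤
      (univ.filter fun l => (expo lam phi z₂ l + t + C).den = 1).card := by
    refine card_le_card fun l hl => ?_
    rw [mem_filter] at hl ⊢
    refine ⟨mem_univ _, ?_⟩
    by_contra hcon
    have h3 := hl.2
    have e1 : ((1 : ℤ) : ℚ) * expo lam phi z₂ l - β z₂ = expo lam phi z₂ l + t + C - η := by
      rw [hβ2]
      push_cast
      ring
    rw [e1] at h3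
    set y : ℚ := expo lam phi z₂ l + t + C with hy
    have hγ2 : γ z₂ = 1 - 2 * η := if_pos rfl
    rw [hγ2] at h3
    obtain ⟨w, hw⟩ : ∃ w : ℤ, (q : ℚ) * y = w := by
      obtain ⟨w1, hw1⟩ := hqe z₂ l
      obtain ⟨w2, hw2⟩ := hqt
      obtain ⟨w3, hw3⟩ := hqC
      exact ⟨w1 + w2 + w3, by rw [hy]; push_cast; rw [mul_add, mul_add, hw1, hw2, hw3]⟩
    have hfy0 : Int.fract y ≠ 0 := by
      intro h
      apply hcon
      rw [den_one_iff]
      obtain ⟨v, hv⟩ := Int.fract_eq_zero_iff.1 h
      exact ⟨v, hv.symm⟩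
    have hqf : (q : ℚ) * Int.fract y = ((w - q * ⌊y⌋ : ℤ) : ℚ) := by
      rw [Int.fract, mul_sub, hw]
      push_cast
      ring
    have hfy : 0 < Int.fract y := lt_of_le_of_ne (Int.fract_nonneg y) (Ne.symm hfy0)
    have hi1 : 1 ≤ w - q * ⌊y⌋ := by
      have h4 : (0 : ℚ) < ((w - q * ⌊y⌋ : ℤ) : ℚ) := by rw [← hqf]; positivity
      have h5 : 0 < w - q * ⌊y⌋ := by exact_mod_cast h4
      omega
    have hi2 : w - q * ⌊y⌋ ≤ q - 1 := by
      have h4 : ((w - q * ⌊y⌋ : ℤ) : ℚ) < ((q : ℤ) : ℚ) := by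
        rw [← hqf]
        push_cast
        have := Int.fract_lt_one y
        nlinarith
      have h5 : w - q * ⌊y⌋ < q := by exact_mod_cast h4
      omega
    have hf1 : 1 / (q : ℚ) ≤ Int.fract y := by
      rw [div_le_iff₀ hq0', mul_comm, hqf]
      exact_mod_cast hi1
    have hf2 : Int.fract y ≤ 1 - 1 / q := by
      have h4 : (q : ℚ) * Int.fract y ≤ q - 1 := by
        rw [hqf]
        exact_mod_cast hi2
      have h5 : Int.fract y ≤ (q - 1) / q := by
        rw [le_div_iff₀ hq0', mul_comm]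
        exact h4
      have h6 : ((q : ℚ) - 1) / q = 1 - 1 / q := by field_simp
      linarith
    have h7 : Int.fract (y - η) = Int.fract y - η := by
      rw [Int.fract_eq_iff]
      refine ⟨by linarith, by linarith [Int.fract_lt_one y], ⌊y⌋, ?_⟩
      rw [Int.fract]
      ring
    rw [h7] at h3
    linarith
  rw [h0, add_zero] at harc
  omega

/-- **Two points.** If the differences at all the other points are integers, then the exponents at the
two points are inverse to each other, with multiplicities. -/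
theorem two_eq (hN : 0 < N) (hden : ∀ p l, ∃ z : ℤ, (N : ℚ) * expo lam phi p l = z)
    (hc : ConjSemi lam phi N) {z₁ z₂ : Option (Fin m)} (hz : z₁ ≠ z₂)
    (κ : Option (Fin m) → Fin n)
    (hx : ∀ x, x ≠ z₁ → x ≠ z₂ → ∀ l, (expo lam phi x l - expo lam phi x (κ x)).den = 1) (t : ℚ) :
    (univ.filter fun l => (expo lam phi z₁ l - t).den = 1).card =
      (univ.filter fun l => (expo lam phi z₂ l + t +
        ∑ x ∈ (univ.erase z₁).erase z₂, expo lam phi x (κ x)).den = 1).card := by
  refine le_antisymm (two_le hN hden hc hz κ hx t) ?_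
  have h := two_le hN hden hc hz.symm κ (fun x h1 h2 => hx x h2 h1)
    (-t - ∑ x ∈ (univ.erase z₁).erase z₂, expo lam phi x (κ x))
  have hcomm : (univ.erase z₂).erase z₁ = ((univ : Finset (Option (Fin m))).erase z₁).erase z₂ :=
    erase_right_comm
  rw [hcomm] at h
  refine le_trans (le_of_eq ?_) (h.trans (le_of_eq ?_))
  · congr 1
    ext l
    simp only [mem_filter, mem_univ, true_and]
    rw [show expo lam phi z₂ l - (-t - ∑ x ∈ (univ.erase z₁).erase z₂, expo lam phi x (κ x)) =
      expo lam phi z₂ l + t + ∑ x ∈ (univ.erase z₁).erase z₂, expo lam phi x (κ x) by ring]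
  · congr 1
    ext l
    simp only [mem_filter, mem_univ, true_and]
    rw [show expo lam phi z₁ l + (-t - ∑ x ∈ (univ.erase z₁).erase z₂, expo lam phi x (κ x)) +
      ∑ x ∈ (univ.erase z₁).erase z₂, expo lam phi x (κ x) = expo lam phi z₁ l - t by ring]

end Pool.Agent.Run7.h700.PC
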