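import Pool.Agent.N858.CV.Cls
import Pool.Agent.Run7.h700.PC.SysEps

set_option autoImplicit false

/-!
Systems for which the matrices `A_p` modulo `p` are nonzero, and those for which factorial cancellation
fails, for a positive proportion of the classes of primes.
-/

open Polynomial

namespace Pool.Agent.Run7.h700.PC

open Pool.Agent.W432.TC Pool.Agent.W432.PC Pool.Agent.Y227.SS Pool.Agent.R340.SY
open Pool.Agent.R340.CF Pool.Agent.N858.CV

universe u

/-- For every common denominator `N` of the exponents there is a set of at least `ε φ(N)` residue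
classes modulo `N`, prime to `N`, such that for every nonzero polynomial `F` and all large primes `p` in
these classes some entry of `A_p` is not in `p R[z, 1 / F]`; and the `p`-curvature does not vanish for
almost all primes. -/
def VanishExcluded {R : Type*} [CommRing R] [IsDomain R] {n r : ℕ} (α : Fin n → R)
    (A : Fin n → Matrix (Fin r) (Fin r) R) (lam : Fin n → Fin r → ℚ) (phi : Fin r → ℚ) (ε : ℝ) :
    Prop :=
  (∀ N : ℕ, 0 < N → (∀ j l, ∃ z : ℤ, (N : ℚ) * lam j l = z) →
    (∀ l, ∃ z : ℤ, (N : ℚ) * phi l = z) → NoVanishClasses α A N ε) ∧ ¬ VanishesAlmost α A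

/-- For every common denominator `N` of the exponents there is a set of at least `ε φ(N)` residue
classes modulo `N`, prime to `N`, such that for every nonzero `M` and all large primes `p` in
these classes some entry of `(M Δ) ^ p A_p / p!` is not in `R[z]`; and there is no nonzero `M` such that
all the `(M Δ) ^ m A_m / m!` have entries in `R[z]`. -/
def CancelExcluded {R : Type*} [CommRing R] [IsDomain R] {n r : ℕ} (α : Fin n → R)
    (A : Fin n → Matrix (Fin r) (Fin r) R) (lam : Fin n → Fin r → ℚ) (phi : Fin r → ℚ) (ε : ℝ) :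
    Prop :=
  (∀ N : ℕ, 0 < N → (∀ j l, ∃ z : ℤ, (N : ℚ) * lam j l = z) →
    (∀ l, ∃ z : ℤ, (N : ℚ) * phi l = z) → NoCancelClasses α A N ε) ∧ ¬ Cancels α A

variable {R : Type u} [CommRing R] [IsDomain R] [CharZero R] [Algebra.FiniteType ℤ R] {n r : ℕ}
  {α : Fin n → R} {A : Fin n → Matrix (Fin r) (Fin r) R} {lam : Fin n → Fin r → ℚ}
  {phi : Fin r → ℚ} {ε : ℝ}

theorem SysExcluded.vanish (hε : 0 < ε) (h : SysExcluded α A lam phi ε) :
    VanishExcluded α A lam phi ε := by
  refine ⟨fun N hN h1 h2 => (noVanishClasses hN hε ⟨1, one_ne_zero, h.1 N hN h1 h2⟩).1, ?_⟩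
  exact (noVanishClasses (prod_den_pos (vec lam phi)) hε ⟨1, one_ne_zero,
    h.1 _ (prod_den_pos (vec lam phi)) (fun j l => prod_den_int (vec lam phi) (Sum.inl (j, l)))
      (fun l => prod_den_int (vec lam phi) (Sum.inr l))⟩).2

theorem SysExcluded.cancel (hε : 0 < ε) (h : SysExcluded α A lam phi ε) :
    CancelExcluded α A lam phi ε := by
  refine ⟨fun N hN h1 h2 => (noCancelClasses hN hε ⟨1, one_ne_zero, h.1 N hN h1 h2⟩).1, ?_⟩
  exact (noCancelClasses (prod_den_pos (vec lam phi)) hε ⟨1, one_ne_zero,
    h.1 _ (prod_den_pos (vec lam phi)) (fun j l => prod_den_int (vec lam phi) (Sum.inl (j, l)))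
      (fun l => prod_den_int (vec lam phi) (Sum.inr l))⟩).2

end Pool.Agent.Run7.h700.PC
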